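import Pool.Agent.H65.Ul.Data4

/-!
# The case `v ≡ 3 (mod 8)`, `v ≥ 59`
-/

set_option autoImplicit false
set_option maxRecDepth 100000

namespace Pool.Agent.H65.Ul

/-- Cells with equal positions are equal. -/
theorem cell_inj {v : ℕ} (hodd : v % 2 = 1) {x y : ℤ} (h1 : -(v : ℤ) < x) (h2 : x < v)
    (h : 2 * x = v * y) : x = 0 ∧ y = 0 := by
  obtain ⟨w, hw⟩ : ∃ w : ℕ, v = 2 * w + 1 := ⟨v / 2, by omega⟩
  obtain ⟨e, he⟩ : ∃ e : ℤ, y = 2 * e := by
    refine ⟨x - w * y, ?_⟩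
    have : 2 * x = (2 * w + 1) * y := by rw [h, hw]; push_cast; ring
    linarith
  have h5 : x = v * e := by rw [he] at h; linarith
  have h6 : e = 0 := by
    by_contra hne
    rcases lt_or_gt_of_ne hne with h7 | h7
    · have : (v : ℤ) * e ≤ v * (-1) := mul_le_mul_of_nonneg_left (by omega) (by omega)
      omega
    · have : (v : ℤ) * 1 ≤ v * e := mul_le_mul_of_nonneg_left (by omega) (by omega)
      omega
  rw [h6] at h5 he
  simp at h5 he
  exact ⟨h5, he⟩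

/-- Two pairs from two witnesses. -/
theorem two_of_wit {v : ℕ} (hodd : v % 2 = 1) {τ i t1 i1 t2 i2 : ℤ}
    (a1 : XZ v (2 * t1 + v * i1) = true) (a2 : XZ v (2 * (τ - t1) + v * (i - i1)) = true)
    (b1 : XZ v (2 * t2 + v * i2) = true) (b2 : XZ v (2 * (τ - t2) + v * (i - i2)) = true)
    (c1 : -(v : ℤ) < 2 * t1 - τ) (c2 : 2 * t1 - τ < v) (c3 : -(v : ℤ) < 2 * t2 - τ)
    (c4 : 2 * t2 - τ < v) (c5 : -(v : ℤ) < t1 - t2) (c6 : t1 - t2 < v)
    (c7 : -(v : ℤ) < t1 + t2 - τ) (c8 : t1 + t2 - τ < v)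
    (d1 : ¬ (2 * t1 - τ = 0 ∧ 2 * i1 = i)) (d2 : ¬ (2 * t2 - τ = 0 ∧ 2 * i2 = i))
    (d3 : ¬ (t1 = t2 ∧ i1 = i2)) (d4 : ¬ (t1 + t2 - τ = 0 ∧ i1 + i2 = i)) :
    Two v (2 * τ + v * i) := by
  refine ⟨2 * t1 + v * i1, 2 * t2 + v * i2, a1, ?_, b1, ?_, ?_, ?_, ?_, ?_⟩
  · have e : 2 * τ + v * i - (2 * t1 + v * i1) = 2 * (τ - t1) + v * (i - i1) := by ring
    rw [e]; exact a2
  · have e : 2 * τ + v * i - (2 * t2 + v * i2) = 2 * (τ - t2) + v * (i - i2) := by ring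
    rw [e]; exact b2
  · intro h
    have := cell_inj hodd c1 c2 (y := i - 2 * i1) (by linarith)
    exact d1 ⟨this.1, by omega⟩
  · intro h
    have := cell_inj hodd c3 c4 (y := i - 2 * i2) (by linarith)
    exact d2 ⟨this.1, by omega⟩
  · intro h
    have := cell_inj hodd c5 c6 (y := i2 - i1) (by linarith)
    exact d3 ⟨by omega, by omega⟩
  · intro h
    have := cell_inj hodd c7 c8 (y := i - i1 - i2) (by linarith)
    exact d4 ⟨this.1, by omega⟩

/-- Coordinates of a position. -/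
theorem coords (v : ℕ) (hodd : v % 2 = 1) (K : ℕ) : ∃ τ i : ℕ, τ < v ∧ ((K = 2 * τ + v * i) ∨
    (K < v ∧ K % 2 = 1)) := by
  have hpos : 0 < v := by omega
  have h1 := Nat.div_add_mod K v
  have h2 := Nat.mod_lt K hpos
  rcases Nat.mod_two_eq_zero_or_one (K % v) with hp | hp
  · exact ⟨K % v / 2, K / v, by omega, Or.inl (by omega)⟩
  · by_cases h3 : K / v = 0
    · refine ⟨0, 0, by omega, Or.inr ?_⟩
      rw [h3] at h1
      have : K % v = K := by simpa using h1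
      exact ⟨by omega, by omega⟩
    · obtain ⟨i, hi⟩ : ∃ i, K / v = i + 1 := Nat.exists_eq_succ_of_ne_zero h3
      rw [hi] at h1
      have e : v * (i + 1) = v * i + v := by ring
      exact ⟨(K % v + v) / 2, i, by omega, Or.inl (by omega)⟩

namespace G4

theorem pat {v : ℕ} (hv : v % 8 = 3) (h59 : 59 ≤ v) : Pat v 23 p0 33 8 51 where
  odd := by omega
  h0 := p0_0
  h1 := p0_1
  lt := p0_lt
  cl := cl
  per := per
  hp := by norm_num
  hc := by norm_num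
  hcv := by omega
  hmod := by omega

/-- Late sums. -/
theorem late {v : ℕ} (hv : v % 8 = 3) (h59 : 59 ≤ v) (K : ℤ) (hK : 22 * (v : ℤ) + 9 ≤ K) :
    Two v K := by
  have H := pat hv h59
  apply two_of_card v K (22 * v + 9)
  apply late_card 3 v H.odd (by omega) (22 * v + 9) K hK 19 14 (by omega) (by push_cast; omega)
    (by norm_num) D0 (by simp [D0]) nE_eq D1 (by rw [D0_len]; simp [D1]; omega)
  · rw [lv_eq]; exact base_chk
  · apply ROK_of_get
    intro j hj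
    rw [D0_len] at hj
    have h := D0_ok j hj
    have e : D0.getD j (0, 0) = D0[j] := List.getD_eq_getElem _ _ (by rw [D0_len]; exact hj)
    rw [e] at h
    have h2 := H.nonneg (t := 13 - j) (by omega) h
    have e2 : ((D0.length : ℕ) : ℤ) - 1 - j = ((13 - j : ℕ) : ℤ) := by rw [D0_len]; omega
    rw [e2]; exact h2
  · rw [D0_len]
    simp only [BD, D0]
    push_cast
    refine ⟨?_, ?_, ?_, ?_, ?_, ?_, ?_, ?_, ?_, ?_, ?_, ?_, ?_, ?_, trivial⟩ <;> omega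
  · apply ROK_two
    intro j hj
    have hj' : j < 8 := by simpa [D1] using hj
    have h := D1_ok j hj'
    have e : D1.getD j 0 = D1[j] := List.getD_eq_getElem _ _ hj
    rw [e] at h
    have h2 := H.neg (m := j + 1) (by omega) (by omega) h
    have e2 : (0 : ℤ) - 1 - j = -((j + 1 : ℕ) : ℤ) := by push_cast; ring
    rw [e2]; exact h2
  · apply BD_two; push_cast; omega
  · intro t ht
    obtain ⟨t0, ht0, hle, hcase⟩ : ∃ t0 : ℕ, t0 ≤ 54 ∧ t0 ≤ t ∧ (t = t0 ∨ (47 ≤ t0 ∧ t % 8 = t0 % 8)) := by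
      by_cases h : t ≤ 54
      · exact ⟨t, h, le_rfl, Or.inl rfl⟩
      · exact ⟨47 + (t - 47) % 8, by omega, by omega, Or.inr ⟨by omega, by omega⟩⟩
    have hk : 54 - t0 < 55 := by omega
    obtain ⟨hlen, hdie⟩ := allDie_sound _ _ _ _ _ die_chk (54 - t0) hk
    refine ⟨LL[54 - t0], (LL.drop (54 - t0 + 1)).take 14, by simp, ?_, ?_⟩
    · have : dieTop 524288 14 3 LL[54 - t0] (LL.drop (54 - t0 + 1)) =
        tryAll (die (2 ^ 19) (tk 14 (LL.drop (54 - t0 + 1)))) 3 LL[54 - t0] (2 ^ 19) (2 ^ 19) 3 := rfl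
      rw [this, tk_eq] at hdie
      exact hdie
    · apply ROK_two
      intro j hj
      have hLL : LL.length = 71 := by rfl
      have hj15 : j < 15 := by
        have : (LL[54 - t0] :: (LL.drop (54 - t0 + 1)).take 14).length ≤ 15 := by
          simp
        omega
      have hget : (LL[54 - t0] :: (LL.drop (54 - t0 + 1)).take 14)[j] = LL.getD (54 - t0 + j) 0 := by
        rcases j with _ | j
        · simp only [List.getElem_cons_zero, Nat.add_zero]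
          rw [List.getD_eq_getElem _ _ hlen]
        · simp only [List.getElem_cons_succ, List.getElem_take, List.getElem_drop]
          rw [List.getD_eq_getElem _ _ (by omega)]
          congr 1; ring
      rw [hget]
      have hs := LL_ok (54 - t0 + j) (by omega)
      have e1 : (54 : ℤ) - ((54 - t0 + j : ℕ) : ℤ) = (t0 : ℤ) - j := by omega
      rw [e1] at hs
      have e2 : (t : ℤ) + 1 - 1 - j = (t : ℤ) - j := by ring
      rw [e2]
      rcases hcase with h | ⟨h, hm⟩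
      · rw [h]
        exact H.rowv_ok (by omega) (by push_cast; omega) hs
      · have e3 : (t : ℤ) - j = ((t - j : ℕ) : ℤ) := by omega
        have e4 : (t0 : ℤ) - j = ((t0 - j : ℕ) : ℤ) := by omega
        rw [e3]
        rw [e4] at hs
        unfold rowv at hs
        rw [if_pos (by omega), Int.toNat_natCast] at hs
        apply H.nonneg (by omega)
        rw [H.eqv (a := t0 - j) (by omega) (by omega) (by omega)]
        exact hs

theorem wit_iff {τ i w : ℕ} (h : wit τ i w = true) : ∃ s1 i1 s2 i2 : ℕ,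
    s1 = w % 64 ∧ s2 = w / 2048 % 64 ∧
    s1 ≤ τ + 8 ∧ i1 ≤ i ∧ s2 ≤ τ + 8 ∧ i2 ≤ i ∧
    (RU.getD s1 0).testBit i1 = true ∧ (RU.getD (τ + 8 - s1) 0).testBit (i - i1) = true ∧
    (RU.getD s2 0).testBit i2 = true ∧ (RU.getD (τ + 8 - s2) 0).testBit (i - i2) = true ∧
    (s1, i1) ≠ (τ + 8 - s1, i - i1) ∧ (s2, i2) ≠ (τ + 8 - s2, i - i2) ∧
    (s1, i1) ≠ (s2, i2) ∧ (s1, i1) ≠ (τ + 8 - s2, i - i2) := by
  unfold wit at h
  simp only [Bool.and_eq_true, decide_eq_true_eq] at h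
  obtain ⟨⟨⟨⟨⟨⟨⟨⟨⟨⟨⟨h1, h2⟩, h3⟩, h4⟩, h5⟩, h6⟩, h7⟩, h8⟩, h9⟩, h10⟩, h11⟩, h12⟩ := h
  exact ⟨_, _, _, _, rfl, rfl, h1, h2, h3, h4, h5, h6, h7, h8, h9, h10, h11, h12⟩

theorem RU_cell {v : ℕ} (H : Pat v 23 p0 33 8 51) (h59 : 59 ≤ v) {s i : ℕ} (hs : s < 57)
    (h : (RU.getD s 0).testBit i = true) : XZ v (2 * ((s : ℤ) - 4) + v * i) = true :=
  H.rowv_ok (by omega) (by push_cast; omega) (RU_ok s hs) i h

theorem early {v : ℕ} (hv : v % 8 = 3) (h59 : 59 ≤ v) (K : ℕ) (h1 : 2 * v + 3 ≤ K)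
    (h2 : K < 22 * v + 9) : Two v K := by
  have H := pat hv h59
  obtain ⟨τ, i, hτ, hK | hK⟩ := coords v H.odd K
  swap
  · omega
  -- the column is between 1 and 22
  have hi0 : 1 ≤ i := by
    by_contra h
    have : i = 0 := by omega
    rw [this] at hK; omega
  have hi1 : i ≤ 22 := by
    by_contra h
    have : v * 23 ≤ v * i := Nat.mul_le_mul_left _ (by omega)
    omega
  have hi2 : i = 1 → 3 ≤ τ := by intro h; rw [h] at hK; omega
  have hKz : (K : ℤ) = 2 * (τ : ℤ) + v * (i : ℤ) := by rw [hK]; push_cast; ring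
  rw [hKz]
  obtain ⟨i', rfl⟩ : ∃ i', i = i' + 1 := ⟨i - 1, by omega⟩
  by_cases hsm : τ < 41
  · have hw := wit_small τ hsm i' (by omega) (fun h => hi2 (by omega))
    obtain ⟨s1, i1, s2, i2, -, -, l1, l2, l3, l4, b1, b2, b3, b4, n1, n2, n3, n4⟩ := wit_iff hw
    have a1 := RU_cell H h59 (by omega) b1
    have a2 := RU_cell H h59 (by omega) b2
    have a3 := RU_cell H h59 (by omega) b3
    have a4 := RU_cell H h59 (by omega) b4
    refine two_of_wit H.odd (τ := τ) (i := ((i' + 1 : ℕ) : ℤ)) (t1 := (s1 : ℤ) - 4) (i1 := i1)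
      (t2 := (s2 : ℤ) - 4) (i2 := i2) a1 ?_ a3 ?_ ?_ ?_ ?_ ?_ ?_ ?_ ?_ ?_ ?_ ?_ ?_ ?_
    · have e1 : ((τ + 8 - s1 : ℕ) : ℤ) - 4 = (τ : ℤ) - ((s1 : ℤ) - 4) := by omega
      have e2 : ((i' + 1 - i1 : ℕ) : ℤ) = ((i' + 1 : ℕ) : ℤ) - i1 := by omega
      rw [e1, e2] at a2; exact a2
    · have e1 : ((τ + 8 - s2 : ℕ) : ℤ) - 4 = (τ : ℤ) - ((s2 : ℤ) - 4) := by omega
      have e2 : ((i' + 1 - i2 : ℕ) : ℤ) = ((i' + 1 : ℕ) : ℤ) - i2 := by omega
      rw [e1, e2] at a4; exact a4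
    · omega
    · omega
    · omega
    · omega
    · omega
    · omega
    · omega
    · omega
    · rintro ⟨q1, q2⟩; apply n1; rw [Prod.mk.injEq]; omega
    · rintro ⟨q1, q2⟩; apply n2; rw [Prod.mk.injEq]; omega
    · rintro ⟨q1, q2⟩; apply n3; rw [Prod.mk.injEq]; omega
    · rintro ⟨q1, q2⟩; apply n4; rw [Prod.mk.injEq]; omega
  · obtain ⟨τ0, h0, hτ0⟩ : ∃ τ0 < 8, τ0 = (τ - 41) % 8 := ⟨_, Nat.mod_lt _ (by norm_num), rfl⟩
    have hw := wit_big τ0 h0 i' (by omega)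
    unfold witb at hw
    simp only [Bool.and_eq_true, decide_eq_true_eq] at hw
    obtain ⟨⟨⟨⟨hw, g1⟩, g2⟩, g3⟩, g4⟩ := hw
    obtain ⟨s1, i1, s2, i2, m1, m2, l1, l2, l3, l4, b1, b2, b3, b4, n1, n2, n3, n4⟩ := wit_iff hw
    rw [← m1] at g1 g2
    rw [← m2] at g3 g4
    have a1 := RU_cell H h59 (by omega) b1
    have a3 := RU_cell H h59 (by omega) b3
    have far : ∀ s : ℕ, 4 ≤ s → s ≤ 12 → ∀ q : ℕ, (RU.getD (τ0 + 41 + 8 - s) 0).testBit q = true →
        XZ v (2 * ((τ : ℤ) - ((s : ℤ) - 4)) + v * q) = true := by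
      intro s hs1 hs2 q hq
      have h3 := RU_ok (τ0 + 41 + 8 - s) (by omega)
      have e1 : ((τ0 + 41 + 8 - s : ℕ) : ℤ) - 4 = ((τ0 + 41 + 4 - s : ℕ) : ℤ) := by omega
      rw [e1] at h3
      unfold rowv at h3
      rw [if_pos (by omega), Int.toNat_natCast] at h3
      rw [← H.eqv (a := τ0 + 41 + 4 - s) (b := τ + 4 - s) (by omega) (by omega) (by omega)] at h3
      have h4 := H.nonneg (by omega) h3 q hq
      have e2 : (τ : ℤ) - ((s : ℤ) - 4) = ((τ + 4 - s : ℕ) : ℤ) := by omega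
      rw [e2]; exact h4
    have a2 := far s1 g1 g2 _ b2
    have a4 := far s2 g3 g4 _ b4
    refine two_of_wit H.odd (τ := τ) (i := ((i' + 1 : ℕ) : ℤ)) (t1 := (s1 : ℤ) - 4) (i1 := i1)
      (t2 := (s2 : ℤ) - 4) (i2 := i2) a1 ?_ a3 ?_ ?_ ?_ ?_ ?_ ?_ ?_ ?_ ?_ ?_ ?_ ?_ ?_
    · have e2 : ((i' + 1 - i1 : ℕ) : ℤ) = ((i' + 1 : ℕ) : ℤ) - i1 := by omega
      rw [e2] at a2; exact a2
    · have e2 : ((i' + 1 - i2 : ℕ) : ℤ) = ((i' + 1 : ℕ) : ℤ) - i2 := by omega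
      rw [e2] at a4; exact a4
    · omega
    · omega
    · omega
    · omega
    · omega
    · omega
    · omega
    · omega
    · rintro ⟨q1, q2⟩; omega
    · rintro ⟨q1, q2⟩; omega
    · rintro ⟨q1, q2⟩; apply n3; rw [Prod.mk.injEq]; omega
    · rintro ⟨q1, q2⟩; omega

/-- The theorem for `v ≡ 3 (mod 8)`, `v ≥ 59`. -/
theorem pairs {v : ℕ} (hv : v % 8 = 3) (h59 : 59 ≤ v) (K : ℕ) (hK : 2 * v + 3 ≤ K) : Two v K := by
  by_cases h : K < 22 * v + 9
  · exact early hv h59 K hK h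
  · exact late hv h59 K (by omega)

end G4

end Pool.Agent.H65.Ul
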