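import Pool.Agent.H65.Ul.DataG8

/-!
# Base check, part 0
-/

set_option autoImplicit false
set_option maxRecDepth 100000

namespace Pool.Agent.H65.Ul.G8

open Pool.Agent.H65.Ul

theorem base_0 : tryAll (run2 (zeroOr (die 536870912 D1)) BL2) 3 30583 0 1 8192 = true := by decide +kernel

end Pool.Agent.H65.Ul.G8
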