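import Pool.Agent.H65.Ul.Mach

/-!
# A faster form of the machine

The price of the known part of the next row is paid once; the free parts are listed by price.
-/

set_option autoImplicit false

namespace Pool.Agent.H65.Ul

/-- All free parts of the list. -/
noncomputable def allL (k : Nat → Bool) (d : Nat) : List Nat → Bool :=
  List.rec (motive := fun _ => Bool) true (fun v _ ih => andb (frc (Nat.add d v) k) ih)

/-- All free parts, the lists are ordered by price. -/
noncomputable def pay (k : Nat → Nat → Bool) (d : Nat) : List (List Nat) → Nat → Bool :=
  List.rec (motive := fun _ => Nat → Bool) (fun _ => true)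
    (fun L _ ih b => andb (allL (fun H => k H b) d L)
      (Nat.rec (motive := fun _ => Bool) true (fun b' _ => ih b') b))

/-- A level: modulus, known row, free parts by price. -/
inductive Lev2 where
  | mk : Nat → Nat → List (List Nat) → Lev2

/-- The machine. -/
noncomputable def run2 (fin : Nat → Nat → Bool) : List Lev2 → Nat → Nat → Bool :=
  List.rec (motive := fun _ => Nat → Nat → Bool) fin
    (fun l _ ih G b => Lev2.rec (motive := fun _ => Bool)
      (fun m F O => frc (dn m G) (fun d => sp (pay ih d O) b (Nat.land d F))) l)

end Pool.Agent.H65.Ul
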