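import Pool.Agent.H65.Ul.Sound
import Pool.Agent.H65.Ul.Mach2

/-!
# The faster machine refines the machine
-/

set_option autoImplicit false

namespace Pool.Agent.H65.Ul

open Finset

theorem bits_zero : bits 0 = ∅ := by
  ext i; simp [mem_bits]

theorem bits_two_mul (n : ℕ) : bits (2 * n) = (bits n).map ⟨Nat.succ, Nat.succ_injective⟩ := by
  ext i
  rw [mem_bits, mem_map]
  rcases i with _ | i
  · simp
  · simp only [mem_bits, Function.Embedding.coeFn_mk, Nat.succ_eq_add_one, Nat.add_right_cancel_iff]
    rw [Nat.testBit_succ, Nat.mul_div_cancel_left n (by norm_num : 0 < 2)]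
    simp

theorem bits_two_mul_add (n : ℕ) :
    bits (2 * n + 1) = insert 0 ((bits n).map ⟨Nat.succ, Nat.succ_injective⟩) := by
  ext i
  rw [mem_bits, mem_insert, mem_map]
  rcases i with _ | i
  · simp
  · simp only [mem_bits, Function.Embedding.coeFn_mk, Nat.succ_eq_add_one, Nat.add_right_cancel_iff]
    rw [Nat.testBit_succ]
    have : (2 * n + 1) / 2 = n := by omega
    rw [this]
    simp

theorem card_two_mul (n : ℕ) : (bits (2 * n)).card = (bits n).card := by
  rw [bits_two_mul, card_map]

theorem card_two_mul_add (n : ℕ) : (bits (2 * n + 1)).card = (bits n).card + 1 := by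
  rw [bits_two_mul_add, card_insert_of_notMem, card_map]
  simp

theorem card_land_pred (n : ℕ) : (bits ((n + 1) &&& n)).card + 1 = (bits (n + 1)).card := by
  induction n using Nat.strong_induction_on with
  | _ n ih =>
    rcases Nat.even_or_odd' n with ⟨k, hk | hk⟩
    · -- n = 2k, n+1 = 2k+1, and = 2k
      have h : (n + 1) &&& n = 2 * k := by
        apply Nat.eq_of_testBit_eq
        intro i
        rw [Nat.testBit_and, hk]
        rcases i with _ | i
        · simp
        · rw [Nat.testBit_succ, Nat.testBit_succ]
          have h1 : (2 * k + 1) / 2 = k := by omega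
          have h2 : 2 * k / 2 = k := by omega
          rw [h1, h2, Bool.and_self]
      rw [h, hk, card_two_mul, card_two_mul_add]
    · -- n = 2k+1, n+1 = 2(k+1)
      have h : (n + 1) &&& n = 2 * ((k + 1) &&& k) := by
        apply Nat.eq_of_testBit_eq
        intro i
        rw [Nat.testBit_and, hk]
        rcases i with _ | i
        · have e : 2 * k + 1 + 1 = 2 * (k + 1) := by ring
          rw [e]; simp
        · rw [Nat.testBit_succ, Nat.testBit_succ, Nat.testBit_succ]
          have h1 : (2 * k + 1) / 2 = k := by omega
          have h2 : (2 * k + 1 + 1) / 2 = k + 1 := by omega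
          have h3 : 2 * ((k + 1) &&& k) / 2 = (k + 1) &&& k := by omega
          rw [h1, h2, h3, Nat.testBit_and]
      have e : n + 1 = 2 * (k + 1) := by omega
      rw [h, card_two_mul, e, card_two_mul]
      exact ih k (by omega)

theorem sp_iff (k : ℕ → Bool) (b : ℕ) : ∀ n : ℕ, sp k b n = true ↔
    ((bits n).card ≤ b → k (b - (bits n).card) = true) := by
  induction b with
  | zero =>
    intro n
    cases n with
    | zero => simp only [bits_zero, card_empty, le_refl, Nat.sub_zero, forall_const]; exact Iff.rfl
    | succ n =>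
      have : 0 < (bits (n + 1)).card := bits_card_pos (Nat.succ_ne_zero n)
      have h1 : sp k 0 (n + 1) = true := rfl
      simp only [h1, true_iff]
      intro h; omega
  | succ b ih =>
    intro n
    cases n with
    | zero =>
      have h1 : sp k (b + 1) 0 = k (b + 1) := rfl
      rw [h1]; simp [bits_zero]
    | succ n =>
      have h1 : sp k (b + 1) (n + 1) = sp k b ((n + 1) &&& n) := rfl
      rw [h1, ih]
      have h2 := card_land_pred n
      rw [← h2]
      simp

theorem sp_mono (k k' : ℕ → Bool) (h : ∀ b, k b = true → k' b = true) (b n : ℕ)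
    (hs : sp k b n = true) : sp k' b n = true := by
  rw [sp_iff] at hs ⊢
  exact fun hc => h _ (hs hc)

theorem tryAll_mono (k k' : ℕ → ℕ → Bool) (h : ∀ G b, k G b = true → k' G b = true)
    (b F d m n : ℕ) (hs : tryAll k b F d m n = true) : tryAll k' b F d m n = true := by
  induction n with
  | zero => rfl
  | succ n ih =>
    have h1 : andb (frc (d + m * n) (fun H => sp (k H) b (H &&& F))) (tryAll k b F d m n) = true := hs
    have h2 : tryAll k' b F d m (n + 1) =
      andb (frc (d + m * n) (fun H => sp (k' H) b (H &&& F))) (tryAll k' b F d m n) := rfl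
    rw [h2]
    rw [andb_iff, frc_eq] at h1 ⊢
    exact ⟨sp_mono _ _ (h _) _ _ h1.1, ih h1.2⟩

theorem allL_iff (k : ℕ → Bool) (d : ℕ) (L : List ℕ) :
    allL k d L = true ↔ ∀ v ∈ L, k (d + v) = true := by
  induction L with
  | nil => simp [allL]
  | cons v L ih =>
    have h1 : allL k d (v :: L) = andb (frc (d + v) k) (allL k d L) := rfl
    rw [h1, andb_iff, frc_eq, ih]
    simp

theorem pay_sound (k : ℕ → ℕ → Bool) (d : ℕ) : ∀ (O : List (List ℕ)) (b : ℕ),
    pay k d O b = true → ∀ c ≤ b, ∀ v ∈ O.getD c [], k (d + v) (b - c) = true := by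
  intro O
  induction O with
  | nil => intro b _ c _ v hv; simp at hv
  | cons L O ih =>
    intro b h c hc v hv
    have h1 : pay k d (L :: O) b = andb (allL (fun H => k H b) d L)
      (Nat.rec (motive := fun _ => Bool) true (fun b' _ => pay k d O b') b) := rfl
    rw [h1, andb_iff, allL_iff] at h
    rcases c with _ | c
    · simpa using h.1 v (by simpa using hv)
    · obtain ⟨b', rfl⟩ : ∃ b', b = b' + 1 := ⟨b - 1, by omega⟩
      have := ih b' h.2 c (by omega) v (by simpa using hv)
      have e : b' + 1 - (c + 1) = b' - c := by omega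
      rw [e]; exact this

/-- The number of bits, for the checks. -/
def pc : ℕ → ℕ → ℕ
  | 0, _ => 0
  | f + 1, n => if n = 0 then 0 else n % 2 + pc f (n / 2)

theorem pc_eq (f : ℕ) : ∀ n : ℕ, n < 2 ^ f → pc f n = (bits n).card := by
  induction f with
  | zero => intro n hn; have : n = 0 := by simpa using hn
            subst this; simp [pc, bits_zero]
  | succ f ih =>
    intro n hn
    unfold pc
    by_cases h0 : n = 0
    · simp [h0, bits_zero]
    · rw [if_neg h0, ih (n / 2) (by rw [pow_succ] at hn; omega)]
      rcases Nat.even_or_odd' n with ⟨k, hk | hk⟩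
      · have e1 : n / 2 = k := by omega
        have e2 : n % 2 = 0 := by omega
        rw [e1, e2, hk, card_two_mul]; ring
      · have e1 : n / 2 = k := by omega
        have e2 : n % 2 = 1 := by omega
        rw [e1, e2, hk, card_two_mul_add]; ring

/-- The fast level contains all the free parts of the level within the budget. -/
def okLev (bd f : ℕ) : Lev → Lev2 → Bool
  | .mk m n F, .mk m' F' O => decide (m' = m) && decide (F' = F) && decide (F < 2 ^ f) &&
      decide (m = 2 ^ (m.log2)) &&
      decide (∀ a < n, bd < pc f ((m * a) &&& F) ∨ m * a ∈ O.getD (pc f ((m * a) &&& F)) [])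

/-- The same for lists. -/
def okLevs (bd f : ℕ) : List Lev → List Lev2 → Bool
  | [], [] => true
  | l :: ls, l' :: ls' => okLev bd f l l' && okLevs bd f ls ls'
  | _, _ => false

theorem card_split {d m a F e : ℕ} (hm : m = 2 ^ e) (hd : d < m) :
    (bits ((d + m * a) &&& F)).card = (bits (d &&& F)).card + (bits ((m * a) &&& F)).card := by
  rw [← card_union_of_disjoint]
  · congr 1
    ext i
    rw [mem_union, mem_bits, mem_bits, mem_bits, Nat.testBit_and, Nat.testBit_and, Nat.testBit_and]
    have h1 : (d + m * a).testBit i = (d.testBit i || (m * a).testBit i) := by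
      have h2 : d + m * a = m * a + d := by ring
      rw [h2, hm, Nat.testBit_two_pow_mul_add a (by rw [← hm]; exact hd) i]
      by_cases hi : i < e
      · have h3 : (2 ^ e * a).testBit i = false := by
          rw [Nat.testBit_two_pow_mul]
          simp [hi]
        simp [hi, h3]
      · have h3 : d.testBit i = false := by
          apply Nat.testBit_lt_two_pow
          calc d < 2 ^ e := by rw [← hm]; exact hd
            _ ≤ 2 ^ i := Nat.pow_le_pow_right (by norm_num) (by omega)
        have h4 : e ≤ i := by omega
        rw [h3, Nat.testBit_two_pow_mul]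
        simp [hi, h4]
    rw [h1]
    cases d.testBit i <;> cases (m * a).testBit i <;> cases F.testBit i <;> simp
  · rw [disjoint_left]
    intro i h1 h2
    rw [mem_bits, Nat.testBit_and, Bool.and_eq_true] at h1 h2
    by_cases hi : i < e
    · have h3 : (m * a).testBit i = false := by
        rw [hm, Nat.testBit_two_pow_mul]
        simp [hi]
      rw [h3] at h2
      exact absurd h2.1 (by simp)
    · have h3 : d.testBit i = false := by
        apply Nat.testBit_lt_two_pow
        calc d < 2 ^ e := by rw [← hm]; exact hd
          _ ≤ 2 ^ i := Nat.pow_le_pow_right (by norm_num) (by omega)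
      rw [h3] at h1
      exact absurd h1.1 (by simp)

theorem tryAll_of' (k : ℕ → ℕ → Bool) (b F d m : ℕ) : ∀ n : ℕ,
    (∀ a < n, sp (k (d + m * a)) b ((d + m * a) &&& F) = true) → tryAll k b F d m n = true := by
  intro n
  induction n with
  | zero => intro _; rfl
  | succ n ih =>
    intro h
    have h1 : tryAll k b F d m (n + 1) = andb (frc (d + m * n) (fun H => sp (k H) b (H &&& F)))
      (tryAll k b F d m n) := rfl
    rw [h1, andb_iff, frc_eq]
    exact ⟨h n (by omega), ih (fun a ha => h a (by omega))⟩

theorem run_of_run2 (bd f : ℕ) (fin : ℕ → ℕ → Bool) : ∀ (ls : List Lev) (ls' : List Lev2),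
    okLevs bd f ls ls' = true → ∀ G b, b ≤ bd → run2 fin ls' G b = true → run fin ls G b = true := by
  intro ls
  induction ls with
  | nil =>
    intro ls' hok G b _ h
    cases ls' with
    | nil => exact h
    | cons l' ls' => simp [okLevs] at hok
  | cons l ls ih =>
    intro ls' hok G b hb h
    cases ls' with
    | nil => simp [okLevs] at hok
    | cons l' ls' =>
      obtain ⟨m, n, F⟩ := l
      obtain ⟨m', F', O⟩ := l'
      simp only [okLevs, okLev, Bool.and_eq_true, decide_eq_true_eq] at hok
      obtain ⟨⟨⟨⟨⟨rfl, rfl⟩, hF⟩, hpow⟩, hO⟩, hok2⟩ := hok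
      have h1 : frc (dn m' G) (fun d => sp (pay (run2 fin ls') d O) b (d &&& F')) = true := h
      rw [frc_eq, sp_iff] at h1
      have h2 : run fin (Lev.mk m' n F' :: ls) G b =
        frc (dn m' G) (fun d => tryAll (run fin ls) b F' d m' n) := rfl
      rw [h2, frc_eq]
      have hdm : dn m' G < m' := by
        unfold dn
        exact Nat.mod_lt _ (by rw [hpow]; positivity)
      apply tryAll_of'
      intro a ha
      rw [sp_iff, card_split hpow hdm]
      intro hc
      have h3 := h1 (by omega)
      have hpc : pc f ((m' * a) &&& F') = (bits ((m' * a) &&& F')).card := by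
        apply pc_eq
        exact lt_of_le_of_lt Nat.and_le_right hF
      rcases hO a ha with h4 | h4
      · rw [hpc] at h4; omega
      · rw [hpc] at h4
        have h5 := pay_sound _ _ _ _ h3 _ (by omega) _ h4
        have h6 := ih ls' hok2 _ _ (by omega) h5
        have e : b - (bits (dn m' G &&& F')).card - (bits ((m' * a) &&& F')).card =
          b - ((bits (dn m' G &&& F')).card + (bits ((m' * a) &&& F')).card) := by omega
        rw [e] at h6
        exact h6

/-- The whole machine from the fast one. -/
theorem run_of_first (bd f : ℕ) (fin : ℕ → ℕ → Bool) (n F : ℕ) (ls : List Lev) (ls' : List Lev2)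
    (hok : okLevs bd f ls ls' = true) (h : tryAll (run2 fin ls') bd F 0 1 n = true) :
    run fin (Lev.mk 1 n F :: ls) 0 bd = true := by
  have h1 : run fin (Lev.mk 1 n F :: ls) 0 bd =
    frc (dn 1 0) (fun d => tryAll (run fin ls) bd F d 1 n) := rfl
  have h2 : dn 1 0 = 0 := by rfl
  rw [h1, frc_eq, h2]
  apply tryAll_of'
  intro a ha
  have h3 := tryAll_sound _ _ _ _ _ _ h a ha
  rw [sp_iff] at h3 ⊢
  intro hc
  exact run_of_run2 bd f fin ls ls' hok _ _ (Nat.sub_le _ _) (h3 hc)

end Pool.Agent.H65.Ul
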