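import Pool.Agent.H65.Ul.DataG8
import Pool.Agent.H65.Ul.Sound2

/-!
# Finite checks for `v ≡ 7 (mod 16)`
-/

set_option autoImplicit false
set_option maxRecDepth 100000

namespace Pool.Agent.H65.Ul.G8

open Pool.Agent.H65.Ul

theorem p0_0 : p0.testBit 0 = true := by decide +kernel

theorem p0_1 : p0.testBit 1 = false := by decide +kernel

theorem p0_lt : p0 < 2 ^ 31 := by decide +kernel

theorem cl : ∀ i < 31 - 2, p0.testBit (i + 2) = (P 31 p0 71).testBit i := by decide +kernel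

theorem per : P 31 p0 (55 + 16) = P 31 p0 55 := by decide +kernel

theorem ok2 : okLevs 3 32 BL BL2 = true := by decide +kernel

theorem D0_len : D0.length = 32 := by rfl

theorem D1_len : D1.length = 12 := by rfl

theorem LL_len : LL.length = 105 := by rfl

theorem D0_ok : ∀ j < 32, Sub (D0.getD j (0, 0)).2 (P 31 p0 (31 - j)) := by decide +kernel

theorem D1_ok : ∀ j < 12, Sub (D1.getD j 0) ((P 31 p0 (71 - (j + 1))) <<< 2) := by decide +kernel

theorem LL_ok : ∀ k < 105, Sub (LL.getD k 0) (rowv 31 p0 71 (86 - (k : ℤ))) := by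
  decide +kernel

theorem RU_ok : ∀ s < 99, Sub (RU.getD s 0) (rowv 31 p0 71 ((s : ℤ) - 8)) := by
  decide +kernel

/-- One witness. -/
def wit (τ i w : ℕ) : Bool :=
  let s1 := w % 128
  let i1 := w / 128 % 32
  let s2 := w / 4096 % 128
  let i2 := w / 524288
  decide (s1 ≤ τ + 16) && decide (i1 ≤ i) && decide (s2 ≤ τ + 16) && decide (i2 ≤ i) &&
  (RU.getD s1 0).testBit i1 && (RU.getD (τ + 16 - s1) 0).testBit (i - i1) &&
  (RU.getD s2 0).testBit i2 && (RU.getD (τ + 16 - s2) 0).testBit (i - i2) &&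
  decide ((s1, i1) ≠ (τ + 16 - s1, i - i1)) && decide ((s2, i2) ≠ (τ + 16 - s2, i - i2)) &&
  decide ((s1, i1) ≠ (s2, i2)) && decide ((s1, i1) ≠ (τ + 16 - s2, i - i2))

theorem wit_small : ∀ τ < 67, ∀ i < 30, (i = 0 → 3 ≤ τ) →
    wit τ (i + 1) ((WT.getD τ []).getD i 0) = true := by decide +kernel

/-- One witness in the periodic part. -/
def witb (τ i w : ℕ) : Bool :=
  wit τ i w && decide (8 ≤ w % 128) && decide (w % 128 ≤ 20) &&
    decide (8 ≤ w / 4096 % 128) && decide (w / 4096 % 128 ≤ 20)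

theorem wit_big : ∀ τ < 16, ∀ i < 30,
    witb (τ + 67) (i + 1) ((WT.getD (τ + 67) []).getD i 0) = true := by decide +kernel

end Pool.Agent.H65.Ul.G8
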