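import Pool.Agent.H65.Ul.DataG8

/-!
# Windows check, part 2
-/

set_option autoImplicit false
set_option maxRecDepth 100000

namespace Pool.Agent.H65.Ul.G8

open Pool.Agent.H65.Ul

theorem die_2 : allDie 134217728 16 3 22 (LL.drop 44) = true := by decide +kernel

end Pool.Agent.H65.Ul.G8
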