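import Pool.Agent.H65.Ul.Small

/-!
# Early sums for `v = 71`
-/

set_option autoImplicit false
set_option maxRecDepth 100000

namespace Pool.Agent.H65.Ul.E71

open Pool.Agent.H65.Ul

/-- The sequence. -/
def M : ℕ := 2100369509810484634372947074194872410964273354212248945845424990813480663305082545854492786839963373723576809145215081494993273904870152017747788935513557751730592105835745462585956013511243150098811804319068845193719236447494938990455242035587887958879074111920140051548211884218321777144231178885886049361927656840068563898655722330990907459232386538372249070468245272191190128216853629733663234536749979556300660531694940945183334313289790822521717291322882854679769164626438996435265987636742106441049931932815489325018549529757412832013254743593826909883702669944128398065342702129495053855316692416710509294844548597909236756991763109205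
/-- The reversed sequence. -/
def R : ℕ := 53342021020672828314036066224150539061762499181679193109855418627338697258944477179333715071271889155123988347708001592314583521449831258034167797540957589082863354920581451322810455767849418688208647291738395779187189270845752729019324793050173839746189651082082305228708357579317874397497166452437975973431584302520285799510229616487488306023393758607934153467348506645179388911347870583973684375344062757331930769456311217839271323884468844064692508887322986539785201441995081704650945097480926118509442415831656849881123996953532624576794444678008000582063402573081453431203996349816354744087339270190359751553221143315885660623119552486752

theorem hM : recOK 71 M 2139 := by decide +kernel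
theorem hR : revOK M R 2139 := by decide +kernel
theorem hearly : ∀ k < 1994, pchk M R 2139 (145 + k) = true := by decide +kernel

theorem early (K : ℕ) (h1 : 145 ≤ K) (h2 : K < 2139) : Two 71 K := by
  have := hearly (K - 145) (by omega)
  have e : 145 + (K - 145) = K := by omega
  rw [e] at this
  exact pchk_ok hM hR (by omega) this

end Pool.Agent.H65.Ul.E71
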