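import Pool.Agent.H65.Ul.Main4
import Pool.Agent.H65.Ul.E71
import Pool.Agent.H65.Ul.ChkG8
import Pool.Agent.H65.Ul.BaseG8_0
import Pool.Agent.H65.Ul.BaseG8_1
import Pool.Agent.H65.Ul.DieG8_0
import Pool.Agent.H65.Ul.DieG8_1
import Pool.Agent.H65.Ul.DieG8_2
import Pool.Agent.H65.Ul.DieG8_3

/-!
# The case `v ≡ 7 (mod 16)`, `v ≥ 71`
-/

set_option autoImplicit false
set_option maxRecDepth 100000

namespace Pool.Agent.H65.Ul.G8

open Pool.Agent.H65.Ul

theorem base_chk : run (zeroOr (die 536870912 D1)) (lv 0 D0) 0 3 = true := by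
  rw [lv_eq]
  apply run_of_first 3 32 _ _ _ BL BL2 ok2
  apply tryAll_of'
  intro a ha
  have e0 : 0 + 1 * a = a := by omega
  rw [e0]
  by_cases h0 : a < 8192
  · have h := tryAll_sound _ _ _ _ _ _ base_0 (a - 0) (by omega)
    have e : 0 + 1 * (a - 0) = a := by omega
    rw [e] at h; exact h
  by_cases h1 : a < 32768
  · have h := tryAll_sound _ _ _ _ _ _ base_1 (a - 8192) (by omega)
    have e : 8192 + 1 * (a - 8192) = a := by omega
    rw [e] at h; exact h
  omega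

theorem die_chk : ∀ k < 87, ∃ h : k < LL.length, dieTop 134217728 16 3 LL[k] (LL.drop (k + 1)) = true := by
  intro k hk
  by_cases h0 : k < 22
  · obtain ⟨h, h'⟩ := allDie_sound _ _ _ _ _ die_0 (k - 0) (by omega)
    rw [List.length_drop] at h
    refine ⟨by omega, ?_⟩
    rw [List.getElem_drop, List.drop_drop] at h'
    have e : 0 + (k - 0) = k := by omega
    have e2 : 0 + (k - 0 + 1) = k + 1 := by omega
    simp only [e, e2] at h'
    exact h'
  by_cases h1 : k < 44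
  · obtain ⟨h, h'⟩ := allDie_sound _ _ _ _ _ die_1 (k - 22) (by omega)
    rw [List.length_drop] at h
    refine ⟨by omega, ?_⟩
    rw [List.getElem_drop, List.drop_drop] at h'
    have e : 22 + (k - 22) = k := by omega
    have e2 : 22 + (k - 22 + 1) = k + 1 := by omega
    simp only [e, e2] at h'
    exact h'
  by_cases h2 : k < 66
  · obtain ⟨h, h'⟩ := allDie_sound _ _ _ _ _ die_2 (k - 44) (by omega)
    rw [List.length_drop] at h
    refine ⟨by omega, ?_⟩
    rw [List.getElem_drop, List.drop_drop] at h'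
    have e : 44 + (k - 44) = k := by omega
    have e2 : 44 + (k - 44 + 1) = k + 1 := by omega
    simp only [e, e2] at h'
    exact h'
  by_cases h3 : k < 87
  · obtain ⟨h, h'⟩ := allDie_sound _ _ _ _ _ die_3 (k - 66) (by omega)
    rw [List.length_drop] at h
    refine ⟨by omega, ?_⟩
    rw [List.getElem_drop, List.drop_drop] at h'
    have e : 66 + (k - 66) = k := by omega
    have e2 : 66 + (k - 66 + 1) = k + 1 := by omega
    simp only [e, e2] at h'
    exact h'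
  omega

theorem pat {v : ℕ} (hv : v % 16 = 7) (h59 : 71 ≤ v) : Pat v 31 p0 55 16 71 where
  odd := by omega
  h0 := p0_0
  h1 := p0_1
  lt := p0_lt
  cl := cl
  per := per
  hp := by norm_num
  hc := by norm_num
  hcv := by omega
  hmod := by omega

/-- Late sums. -/
theorem late {v : ℕ} (hv : v % 16 = 7) (h59 : 71 ≤ v) (K : ℤ)
    (hK : 30 * (v : ℤ) + 9 ≤ K) : Two v K := by
  have H := pat hv h59
  apply two_of_card v K (30 * v + 9)
  apply late_card 3 v H.odd (by omega) (30 * v + 9) K hK 27 16 (by omega)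
    (by push_cast; omega)
    (by norm_num) D0 (by simp [D0]) nE_eq D1 (by rw [D0_len, D1_len]; omega)
  · exact base_chk
  · apply ROK_of_get
    intro j hj
    rw [D0_len] at hj
    have h := D0_ok j hj
    have e : D0.getD j (0, 0) = D0[j] := List.getD_eq_getElem _ _ (by rw [D0_len]; exact hj)
    rw [e] at h
    have h2 := H.nonneg (t := 31 - j) (by omega) h
    have e2 : ((D0.length : ℕ) : ℤ) - 1 - j = ((31 - j : ℕ) : ℤ) := by rw [D0_len]; omega
    rw [e2]; exact h2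
  · rw [D0_len]
    simp only [BD, D0]
    push_cast
    repeat' apply And.intro
    all_goals first | trivial | omega
  · apply ROK_two
    intro j hj
    have hj' : j < 12 := by rw [D1_len] at hj; exact hj
    have h := D1_ok j hj'
    have e : D1.getD j 0 = D1[j] := List.getD_eq_getElem _ _ hj
    rw [e] at h
    have h2 := H.neg (m := j + 1) (by omega) (by omega) h
    have e2 : (0 : ℤ) - 1 - j = -((j + 1 : ℕ) : ℤ) := by push_cast; ring
    rw [e2]; exact h2
  · apply BD_two; push_cast; omega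
  · intro t ht
    obtain ⟨t0, ht0, hle, hcase⟩ : ∃ t0 : ℕ, t0 ≤ 86 ∧ t0 ≤ t ∧
        (t = t0 ∨ (71 ≤ t0 ∧ t % 16 = t0 % 16)) := by
      by_cases h : t ≤ 86
      · exact ⟨t, h, le_rfl, Or.inl rfl⟩
      · exact ⟨71 + (t - 71) % 16, by omega, by omega, Or.inr ⟨by omega, by omega⟩⟩
    have hk : 86 - t0 < 87 := by omega
    obtain ⟨hlen, hdie⟩ := die_chk (86 - t0) hk
    refine ⟨LL[86 - t0], (LL.drop (86 - t0 + 1)).take 16, by simp, ?_, ?_⟩
    · have : dieTop 134217728 16 3 LL[86 - t0] (LL.drop (86 - t0 + 1)) =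
        tryAll (die (2 ^ 27) (tk 16 (LL.drop (86 - t0 + 1)))) 3 LL[86 - t0] (2 ^ 27)
          (2 ^ 27) 3 := rfl
      rw [this, tk_eq] at hdie
      exact hdie
    · apply ROK_two
      intro j hj
      have hLL := LL_len
      have hj15 : j < 17 := by
        have : (LL[86 - t0] :: (LL.drop (86 - t0 + 1)).take 16).length ≤ 17 := by
          simp
        omega
      have hget : (LL[86 - t0] :: (LL.drop (86 - t0 + 1)).take 16)[j] =
          LL.getD (86 - t0 + j) 0 := by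
        rcases j with _ | j
        · simp only [List.getElem_cons_zero, Nat.add_zero]
          exact (List.getD_eq_getElem _ _ hlen).symm
        · simp only [List.getElem_cons_succ, List.getElem_take, List.getElem_drop]
          rw [List.getD_eq_getElem _ _ (by omega)]
          congr 1; ring
      rw [hget]
      have hs := LL_ok (86 - t0 + j) (by omega)
      have e1 : (86 : ℤ) - ((86 - t0 + j : ℕ) : ℤ) = (t0 : ℤ) - j := by omega
      rw [e1] at hs
      have e2 : (t : ℤ) + 1 - 1 - j = (t : ℤ) - j := by ring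
      rw [e2]
      rcases hcase with h | ⟨h, hm⟩
      · rw [h]
        exact H.rowv_ok (by omega) (by push_cast; omega) hs
      · have e3 : (t : ℤ) - j = ((t - j : ℕ) : ℤ) := by omega
        have e4 : (t0 : ℤ) - j = ((t0 - j : ℕ) : ℤ) := by omega
        rw [e3]
        rw [e4] at hs
        unfold rowv at hs
        rw [if_pos (by omega), Int.toNat_natCast] at hs
        apply H.nonneg (by omega)
        rw [H.eqv (a := t0 - j) (by omega) (by omega) (by omega)]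
        exact hs

theorem wit_iff {τ i w : ℕ} (h : wit τ i w = true) : ∃ s1 i1 s2 i2 : ℕ,
    s1 = w % 128 ∧ s2 = w / 4096 % 128 ∧
    s1 ≤ τ + 16 ∧ i1 ≤ i ∧ s2 ≤ τ + 16 ∧ i2 ≤ i ∧
    (RU.getD s1 0).testBit i1 = true ∧ (RU.getD (τ + 16 - s1) 0).testBit (i - i1) = true ∧
    (RU.getD s2 0).testBit i2 = true ∧ (RU.getD (τ + 16 - s2) 0).testBit (i - i2) = true ∧
    (s1, i1) ≠ (τ + 16 - s1, i - i1) ∧ (s2, i2) ≠ (τ + 16 - s2, i - i2) ∧
    (s1, i1) ≠ (s2, i2) ∧ (s1, i1) ≠ (τ + 16 - s2, i - i2) := by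
  unfold wit at h
  simp only [Bool.and_eq_true, decide_eq_true_eq] at h
  obtain ⟨⟨⟨⟨⟨⟨⟨⟨⟨⟨⟨h1, h2⟩, h3⟩, h4⟩, h5⟩, h6⟩, h7⟩, h8⟩, h9⟩, h10⟩, h11⟩, h12⟩ := h
  exact ⟨_, _, _, _, rfl, rfl, h1, h2, h3, h4, h5, h6, h7, h8, h9, h10, h11, h12⟩

theorem RU_cell {v : ℕ} (H : Pat v 31 p0 55 16 71) (h59 : 71 ≤ v) {s i : ℕ}
    (hs : s < 99) (hs2 : (s : ℤ) - 8 < v)
    (h : (RU.getD s 0).testBit i = true) : XZ v (2 * ((s : ℤ) - 8) + v * i) = true :=
  H.rowv_ok (by omega) (by push_cast; omega) (RU_ok s hs) i h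

theorem early {v : ℕ} (hv : v % 16 = 7) (h59 : 71 ≤ v) (h60 : 87 ≤ v) (K : ℕ) (h1 : 2 * v + 3 ≤ K)
    (h2 : K < 30 * v + 9) : Two v K := by
  have H := pat hv h59
  obtain ⟨τ, i, hτ, hK | hK⟩ := coords v H.odd K
  swap
  · omega
  have hi0 : 1 ≤ i := by
    by_contra h
    have : i = 0 := by omega
    rw [this] at hK; omega
  have hi1 : i ≤ 30 := by
    by_contra h
    have : v * (30 + 1) ≤ v * i := Nat.mul_le_mul_left _ (by omega)
    omega
  have hi2 : i = 1 → 3 ≤ τ := by intro h; rw [h] at hK; omega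
  have hKz : (K : ℤ) = 2 * (τ : ℤ) + v * (i : ℤ) := by rw [hK]; push_cast; ring
  rw [hKz]
  obtain ⟨i', rfl⟩ : ∃ i', i = i' + 1 := ⟨i - 1, by omega⟩
  by_cases hsm : τ < 67
  · have hw := wit_small τ hsm i' (by omega) (fun h => hi2 (by omega))
    obtain ⟨s1, i1, s2, i2, -, -, l1, l2, l3, l4, b1, b2, b3, b4, n1, n2, n3, n4⟩ := wit_iff hw
    have a1 := RU_cell H h59 (by omega) (by omega) b1
    have a2 := RU_cell H h59 (by omega) (by omega) b2
    have a3 := RU_cell H h59 (by omega) (by omega) b3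
    have a4 := RU_cell H h59 (by omega) (by omega) b4
    refine two_of_wit H.odd (τ := τ) (i := ((i' + 1 : ℕ) : ℤ)) (t1 := (s1 : ℤ) - 8) (i1 := i1)
      (t2 := (s2 : ℤ) - 8) (i2 := i2) a1 ?_ a3 ?_ ?_ ?_ ?_ ?_ ?_ ?_ ?_ ?_ ?_ ?_ ?_ ?_
    · have e1 : ((τ + 16 - s1 : ℕ) : ℤ) - 8 = (τ : ℤ) - ((s1 : ℤ) - 8) := by omega
      have e2 : ((i' + 1 - i1 : ℕ) : ℤ) = ((i' + 1 : ℕ) : ℤ) - i1 := by omega
      rw [e1, e2] at a2; exact a2
    · have e1 : ((τ + 16 - s2 : ℕ) : ℤ) - 8 = (τ : ℤ) - ((s2 : ℤ) - 8) := by omega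
      have e2 : ((i' + 1 - i2 : ℕ) : ℤ) = ((i' + 1 : ℕ) : ℤ) - i2 := by omega
      rw [e1, e2] at a4; exact a4
    · omega
    · omega
    · omega
    · omega
    · omega
    · omega
    · omega
    · omega
    · rintro ⟨q1, q2⟩; apply n1; rw [Prod.mk.injEq]; omega
    · rintro ⟨q1, q2⟩; apply n2; rw [Prod.mk.injEq]; omega
    · rintro ⟨q1, q2⟩; apply n3; rw [Prod.mk.injEq]; omega
    · rintro ⟨q1, q2⟩; apply n4; rw [Prod.mk.injEq]; omega
  · obtain ⟨τ0, h0, hτ0⟩ : ∃ τ0 < 16, τ0 = (τ - 67) % 16 := ⟨_, Nat.mod_lt _ (by norm_num), rfl⟩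
    have hw := wit_big τ0 h0 i' (by omega)
    unfold witb at hw
    simp only [Bool.and_eq_true, decide_eq_true_eq] at hw
    obtain ⟨⟨⟨⟨hw, g1⟩, g2⟩, g3⟩, g4⟩ := hw
    obtain ⟨s1, i1, s2, i2, m1, m2, l1, l2, l3, l4, b1, b2, b3, b4, n1, n2, n3, n4⟩ := wit_iff hw
    rw [← m1] at g1 g2
    rw [← m2] at g3 g4
    have a1 := RU_cell H h59 (by omega) (by omega) b1
    have a3 := RU_cell H h59 (by omega) (by omega) b3
    have far : ∀ s : ℕ, 8 ≤ s → s ≤ 20 → ∀ q : ℕ,
        (RU.getD (τ0 + 67 + 16 - s) 0).testBit q = true →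
        XZ v (2 * ((τ : ℤ) - ((s : ℤ) - 8)) + v * q) = true := by
      intro s hs1 hs2 q hq
      have h3 := RU_ok (τ0 + 67 + 16 - s) (by omega)
      have e1 : ((τ0 + 67 + 16 - s : ℕ) : ℤ) - 8 = ((τ0 + 67 + 8 - s : ℕ) : ℤ) := by
        omega
      rw [e1] at h3
      unfold rowv at h3
      rw [if_pos (by omega), Int.toNat_natCast] at h3
      rw [← H.eqv (a := τ0 + 67 + 8 - s) (b := τ + 8 - s) (by omega) (by omega)
        (by omega)] at h3
      have h4 := H.nonneg (by omega) h3 q hq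
      have e2 : (τ : ℤ) - ((s : ℤ) - 8) = ((τ + 8 - s : ℕ) : ℤ) := by omega
      rw [e2]; exact h4
    have a2 := far s1 g1 g2 _ b2
    have a4 := far s2 g3 g4 _ b4
    refine two_of_wit H.odd (τ := τ) (i := ((i' + 1 : ℕ) : ℤ)) (t1 := (s1 : ℤ) - 8) (i1 := i1)
      (t2 := (s2 : ℤ) - 8) (i2 := i2) a1 ?_ a3 ?_ ?_ ?_ ?_ ?_ ?_ ?_ ?_ ?_ ?_ ?_ ?_ ?_
    · have e2 : ((i' + 1 - i1 : ℕ) : ℤ) = ((i' + 1 : ℕ) : ℤ) - i1 := by omega
      rw [e2] at a2; exact a2
    · have e2 : ((i' + 1 - i2 : ℕ) : ℤ) = ((i' + 1 : ℕ) : ℤ) - i2 := by omega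
      rw [e2] at a4; exact a4
    · omega
    · omega
    · omega
    · omega
    · omega
    · omega
    · omega
    · omega
    · rintro ⟨q1, q2⟩; omega
    · rintro ⟨q1, q2⟩; omega
    · rintro ⟨q1, q2⟩; apply n3; rw [Prod.mk.injEq]; omega
    · rintro ⟨q1, q2⟩; omega

/-- The theorem for `v ≡ 7 (mod 16)`, `v ≥ 71`. -/
theorem pairs {v : ℕ} (hv : v % 16 = 7) (h59 : 71 ≤ v) (K : ℕ) (hK : 2 * v + 3 ≤ K) :
    Two v K := by
  by_cases h : K < 30 * v + 9
  · by_cases h2 : v = 71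
    · rw [h2]
      exact E71.early K (by omega) (by omega)
    · exact early hv h59 (by omega) K hK h
  · exact late hv h59 K (by omega)

end Pool.Agent.H65.Ul.G8
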