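import Pool.Agent.H65.Ul.Small

/-!
# The value `v = 11`, by periodicity
-/

set_option autoImplicit false
set_option maxRecDepth 100000

namespace Pool.Agent.H65.Ul.V11

open Pool.Agent.H65.Ul

/-- The sequence. -/
def M : ℕ := 1340531691542127728783769950719164772579396733196942198574247743622417283911958394422764915474384793902603918688818994289047558670772605541123489610038174910766579369147357738482717652875000978412283149596108557896390477836124124931417612273508057737233843845425084889813783535475599700221670087685461
/-- The reversed sequence. -/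
def R : ℕ := 7144087906841414081699149061043001408508460039403132814034345358702907352770647658801377930910815330129986368921161749486671257554129615017459953974922718386463948812286903829431678081115290518120428975141093820687676361603177653736502866920920015527790897395291102689864282479874464090166098497953796

theorem hM : recOK 11 M 1000 := by decide +kernel
theorem hR : revOK M R 1000 := by decide +kernel
theorem hper : ∀ k < 24, M.testBit (48 + k) = M.testBit (48 + k + 659) := by decide +kernel
theorem hearly : ∀ k < 275, pchk M R 1000 (25 + k) = true := by decide +kernel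
theorem hlate : ∀ k < 659, clr ((M % 2 ^ 150) &&& (R >>> (1000 - 1 - (300 + k)))) ≠ 0 := by
  decide +kernel

theorem per : ∀ k : ℕ, 48 ≤ k → X 11 (k + 659) = X 11 k := by
  intro k
  induction k using Nat.strong_induction_on with
  | _ k ih =>
    intro hk
    by_cases h : k < 72
    · have h1 := hper (k - 48) (by omega)
      rw [hM.spec _ (by omega), hM.spec _ (by omega)] at h1
      have e : 48 + (k - 48) = k := by omega
      rw [e] at h1
      exact h1.symm
    · have h1 := ih (k - 2) (by omega) (by omega)
      have h2 := ih (k - 13) (by omega) (by omega)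
      have h3 := ih (k - 24) (by omega) (by omega)
      have aux : ∀ j : ℕ, 24 ≤ j → X 11 j = E (X 11 (j - 2)) (X 11 (j - 13)) (X 11 (j - 24)) := by
        intro j hj
        rw [X, if_neg (by omega), dif_pos (by omega), dif_pos (by omega), dif_pos (by omega)]
      rw [aux (k + 659) (by omega), aux k (by omega)]
      have e1 : k + 659 - 2 = k - 2 + 659 := by omega
      have e2 : k + 659 - 13 = k - 13 + 659 := by omega
      have e3 : k + 659 - 24 = k - 24 + 659 := by omega
      rw [e1, e2, e3, h1, h2, h3]

theorem per_mul (m : ℕ) : ∀ k : ℕ, 48 ≤ k → X 11 (k + 659 * m) = X 11 k := by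
  intro k hk
  induction m with
  | zero => rfl
  | succ m ih =>
    have e : k + 659 * (m + 1) = k + 659 * m + 659 := by ring
    rw [e, per _ (by omega), ih]

theorem pairs : ∀ K : ℕ, 2 * 11 + 3 ≤ K → Two 11 K := by
  intro K hK
  by_cases h : K < 300
  · have h1 := hearly (K - 25) (by omega)
    have e : 25 + (K - 25) = K := by omega
    rw [e] at h1
    exact pchk_ok hM hR (by omega) h1
  · obtain ⟨k, m, hk, hKm⟩ : ∃ k m : ℕ, k < 659 ∧ K = 300 + k + 659 * m :=
      ⟨(K - 300) % 659, (K - 300) / 659, by omega, by omega⟩
    have h1 := hlate k hk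
    have h0 : (M % 2 ^ 150) &&& (R >>> (1000 - 1 - (300 + k))) ≠ 0 := by
      intro h0; apply h1; rw [h0]; rfl
    have h2 := clr_card (bits_card_pos h1) h0
    obtain ⟨a, ha, b, hb, hab⟩ := Finset.one_lt_card.mp (by omega : 1 <
      (bits ((M % 2 ^ 150) &&& (R >>> (1000 - 1 - (300 + k))))).card)
    have key : ∀ c ∈ bits ((M % 2 ^ 150) &&& (R >>> (1000 - 1 - (300 + k)))),
        c < 150 ∧ X 11 c = true ∧ X 11 (K - c) = true := by
      intro c hc
      rw [mem_bits, Nat.testBit_and, Nat.testBit_shiftRight, Nat.testBit_mod_two_pow,
        Bool.and_eq_true, Bool.and_eq_true, decide_eq_true_eq] at hc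
      obtain ⟨⟨c1, c2⟩, c3⟩ := hc
      have e : 1000 - 1 - (300 + k) + c = 1000 - 1 - (300 + k - c) := by omega
      rw [e, hR.2 _ (by omega), hM.spec _ (by omega)] at c3
      rw [hM.spec _ (by omega)] at c2
      refine ⟨c1, c2, ?_⟩
      have e2 : K - c = 300 + k - c + 659 * m := by omega
      rw [e2, per_mul m _ (by omega)]
      exact c3
    obtain ⟨a1, a2, a3⟩ := key a ha
    obtain ⟨b1, b2, b3⟩ := key b hb
    have ea : (K : ℤ) - a = ((K - a : ℕ) : ℤ) := by omega
    have eb : (K : ℤ) - b = ((K - b : ℕ) : ℤ) := by omega
    refine ⟨a, b, by rw [XZ_nat]; exact a2, by rw [ea, XZ_nat]; exact a3,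
      by rw [XZ_nat]; exact b2, by rw [eb, XZ_nat]; exact b3, by omega, by omega,
      by exact_mod_cast hab, by omega⟩

end Pool.Agent.H65.Ul.V11
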