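import Pool.Agent.H65.Ul.Ulam2
import Pool.Agent.H65.Ul.V11
import Pool.Agent.H65.Ul.V19
import Pool.Agent.H65.Ul.V23
import Pool.Agent.H65.Ul.V27
import Pool.Agent.H65.Ul.V35
import Pool.Agent.H65.Ul.V39
import Pool.Agent.H65.Ul.V43
import Pool.Agent.H65.Ul.V51
import Pool.Agent.H65.Ul.V55
import Pool.Agent.H65.Ul.Main4
import Pool.Agent.H65.Ul.MainG8

/-!
# Two pairs for every sum, `v ≡ 3, 7, 11 (mod 16)`
-/

set_option autoImplicit false

namespace Pool.Agent.H65.Ul

theorem all_pairs (v : ℕ) (hv : 11 ≤ v) (hm : v % 16 = 3 ∨ v % 16 = 7 ∨ v % 16 = 11) :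
    ∀ K : ℕ, 2 * v + 3 ≤ K → Two v K := by
  rcases hm with h | h | h
  · by_cases h59 : 59 ≤ v
    · exact G4.pairs (by omega) h59
    · have : v = 19 ∨ v = 35 ∨ v = 51 := by omega
      rcases this with rfl | rfl | rfl
      · exact V19.pairs
      · exact V35.pairs
      · exact V51.pairs
  · by_cases h71 : 71 ≤ v
    · exact G8.pairs h h71
    · have : v = 23 ∨ v = 39 ∨ v = 55 := by omega
      rcases this with rfl | rfl | rfl
      · exact V23.pairs
      · exact V39.pairs
      · exact V55.pairs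
  · by_cases h59 : 59 ≤ v
    · exact G4.pairs (by omega) h59
    · have : v = 11 ∨ v = 27 ∨ v = 43 := by omega
      rcases this with rfl | rfl | rfl
      · exact V11.pairs
      · exact V27.pairs
      · exact V43.pairs

end Pool.Agent.H65.Ul
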