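import Pool.Agent.H65.Ul.Ulam2

/-!
# The general argument, from the finite checks
-/

set_option autoImplicit false

namespace Pool.Agent.H65.Ul

open Finset

theorem two_of_card (v : ℕ) (K W : ℤ) (h : 4 ≤ (coin (fun j => XZ v (K - j)) v W).card) :
    Two v K := by
  classical
  set c := coin (fun j => XZ v (K - j)) v W with hc
  have hmem : ∀ j ∈ c, XZ v j = true ∧ XZ v (K - j) = true := by
    intro j hj
    rw [hc] at hj
    unfold coin at hj
    rw [mem_filter, Bool.and_eq_true] at hj
    exact hj.2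
  -- remove the diagonal
  have h1 : 3 ≤ (c.filter (fun j => 2 * j ≠ K)).card := by
    have e : c = c.filter (fun j => 2 * j ≠ K) ∪ c.filter (fun j => ¬ (2 * j ≠ K)) := by
      rw [filter_union_filter_not_eq]
    have h2 : (c.filter (fun j => ¬ (2 * j ≠ K))).card ≤ 1 := by
      rw [card_le_one]
      intro a ha b hb
      rw [mem_filter] at ha hb
      have := not_not.mp ha.2
      have := not_not.mp hb.2
      omega
    have h3 := card_union_le (c.filter (fun j => 2 * j ≠ K)) (c.filter (fun j => ¬ (2 * j ≠ K)))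
    rw [← e] at h3
    omega
  obtain ⟨a, ha⟩ : (c.filter (fun j => 2 * j ≠ K)).Nonempty := card_pos.mp (by omega)
  have h4 : 0 < ((c.filter (fun j => 2 * j ≠ K)) \ {a, K - a}).card := by
    have := le_card_sdiff {a, K - a} (c.filter (fun j => 2 * j ≠ K))
    have h5 : ({a, K - a} : Finset ℤ).card ≤ 2 := card_le_two
    omega
  obtain ⟨b, hb⟩ := card_pos.mp h4
  rw [mem_sdiff, mem_insert, mem_singleton, not_or] at hb
  obtain ⟨hb1, hb2, hb3⟩ := hb
  rw [mem_filter] at ha hb1
  have ma := hmem a ha.1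
  have mb := hmem b hb1.1
  exact ⟨a, b, ma.1, ma.2, mb.1, mb.2, ha.2, hb1.2, fun h => hb2 h.symm, fun h => hb3 (by omega)⟩

/-- The same with two coincidences in the first half. -/
theorem two_of_half (v : ℕ) (K W : ℤ) (hW : 2 * W ≤ K)
    (h : 2 ≤ (coin (fun j => XZ v (K - j)) v W).card) : Two v K := by
  obtain ⟨a, ha, b, hb, hab⟩ := Finset.one_lt_card.mp h
  unfold coin at ha hb
  rw [mem_filter, mem_Ico, Bool.and_eq_true] at ha hb
  exact ⟨a, b, ha.2.1, ha.2.2, hb.2.1, hb.2.2, by omega, by omega, hab, by omega⟩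

/-- Bitwise inclusion. -/
def Sub (F G : ℕ) : Prop := F &&& G = F

instance (F G : ℕ) : Decidable (Sub F G) := by unfold Sub; infer_instance

theorem Sub.bit {F G : ℕ} (h : Sub F G) {i : ℕ} (hi : F.testBit i = true) : G.testBit i = true := by
  have h1 : (F &&& G).testBit i = true := by rw [h]; exact hi
  rw [Nat.testBit_and, Bool.and_eq_true] at h1
  exact h1.2

theorem P_lt (n p0 : ℕ) (h : p0 < 2 ^ n) : ∀ t, P n p0 t < 2 ^ n
  | 0 => h
  | t + 1 => by
    rw [P]; unfold up
    exact Nat.mod_lt _ (by positivity)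

/-- The hypotheses on the pattern: `n` columns, first row `p0`, period `p` from `T0` on, and
`c` a representative of `v`. -/
structure Pat (v n p0 T0 p c : ℕ) : Prop where
  odd : v % 2 = 1
  h0 : p0.testBit 0 = true
  h1 : p0.testBit 1 = false
  lt : p0 < 2 ^ n
  cl : ∀ i < n - 2, p0.testBit (i + 2) = (P n p0 c).testBit i
  per : P n p0 (T0 + p) = P n p0 T0
  hp : 0 < p
  hc : T0 ≤ c
  hcv : c ≤ v
  hmod : v % p = c % p

variable {v n p0 T0 p c : ℕ}

theorem Pat.eqv (H : Pat v n p0 T0 p c) {a b : ℕ} (ha : T0 ≤ a) (hab : a ≤ b) (hm : b % p = a % p) :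
    P n p0 b = P n p0 a := by
  have h1 : p ∣ b - a := (Nat.modEq_iff_dvd' hab).mp hm.symm
  obtain ⟨k, hk⟩ := h1
  have e : b = a + p * k := by omega
  rw [e, P_per_mul n p0 T0 p H.per k a ha]

theorem Pat.spec (H : Pat v n p0 T0 p c) {t i : ℕ} (ht : t < v) (hi : i < n) :
    XZ v (2 * (t : ℤ) + v * (i : ℤ)) = (P n p0 t).testBit i := by
  refine P_spec v n p0 H.odd H.h0 H.h1 ?_ _ t ht i hi rfl
  intro j hj
  rw [H.eqv H.hc H.hcv H.hmod]
  exact H.cl j (by omega)

theorem Pat.nonneg (H : Pat v n p0 T0 p c) {t F : ℕ} (ht : t < v) (h : Sub F (P n p0 t)) :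
    RowOK v t F := by
  intro i hi
  have h1 := h.bit hi
  have h2 : i < n := by
    by_contra h3
    have h4 := P_lt n p0 H.lt t
    have h5 : P n p0 t < 2 ^ i := h4.trans_le (Nat.pow_le_pow_right (by norm_num) (by omega))
    rw [Nat.testBit_lt_two_pow h5] at h1
    exact Bool.noConfusion h1
  rw [H.spec ht h2]; exact h1

theorem Pat.neg (H : Pat v n p0 T0 p c) {m F : ℕ} (hm : 0 < m) (hm2 : T0 + m ≤ c)
    (h : Sub F ((P n p0 (c - m)) <<< 2)) : RowOK v (-(m : ℤ)) F := by
  intro i hi
  have h1 := h.bit hi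
  rw [Nat.testBit_shiftLeft, Bool.and_eq_true, decide_eq_true_eq] at h1
  have hcv := H.hcv
  have e : P n p0 (v - m) = P n p0 (c - m) := by
    apply H.eqv (by omega) (by omega)
    have h2 : p ∣ v - c := (Nat.modEq_iff_dvd' H.hcv).mp H.hmod.symm
    obtain ⟨k, hk⟩ := h2
    have h3 : v - m = (c - m) + p * k := by omega
    rw [h3, Nat.add_mul_mod_self_left]
  rw [← e] at h1
  have h2 : i - 2 < n := by
    by_contra h3
    have h4 := P_lt n p0 H.lt (v - m)
    have h5 : P n p0 (v - m) < 2 ^ (i - 2) :=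
      h4.trans_le (Nat.pow_le_pow_right (by norm_num) (by omega))
    rw [Nat.testBit_lt_two_pow h5] at h1
    exact Bool.noConfusion h1.2
  have h3 := H.spec (t := v - m) (i := i - 2) (by omega) h2
  rw [h1.2] at h3
  have e2 : 2 * (-(m : ℤ)) + v * (i : ℤ) = 2 * ((v - m : ℕ) : ℤ) + v * ((i - 2 : ℕ) : ℤ) := by
    have a1 : ((v - m : ℕ) : ℤ) = v - m := by omega
    have a2 : ((i - 2 : ℕ) : ℤ) = i - 2 := by omega
    rw [a1, a2]; ring
  rw [e2]; exact h3

/-- The value of a row near the seam. -/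
def rowv (n p0 c : ℕ) (t : ℤ) : ℕ :=
  if 0 ≤ t then P n p0 t.toNat else (P n p0 (c + t).toNat) <<< 2

theorem Pat.rowv_ok (H : Pat v n p0 T0 p c) {t : ℤ} {F : ℕ} (h1 : t < v) (h2 : (T0 : ℤ) ≤ c + t)
    (h : Sub F (rowv n p0 c t)) : RowOK v t F := by
  unfold rowv at h
  by_cases ht : 0 ≤ t
  · rw [if_pos ht] at h
    have e : t = ((t.toNat : ℕ) : ℤ) := by omega
    rw [e]
    exact H.nonneg (by omega) h
  · rw [if_neg ht] at h
    obtain ⟨m, hm⟩ : ∃ m : ℕ, t = -(m : ℤ) := ⟨(-t).toNat, by omega⟩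
    rw [hm] at h ⊢
    apply H.neg (by omega) (by omega)
    have e : (c + -(m : ℤ)).toNat = c - m := by omega
    rw [e] at h; exact h

theorem ROK_two (v : ℕ) : ∀ (Fs : List ℕ) (t : ℤ),
    (∀ j (h : j < Fs.length), RowOK v (t - 1 - j) Fs[j]) → ROK v (two Fs) t := by
  intro Fs
  induction Fs with
  | nil => intro t _; trivial
  | cons F Fs ih =>
    intro t h
    refine ⟨?_, ih (t - 1) ?_⟩
    · have := h 0 (by simp)
      simpa using this
    · intro j hj
      have := h (j + 1) (by simpa using hj)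
      simp only [List.getElem_cons_succ] at this
      have e : t - 1 - ((j + 1 : ℕ) : ℤ) = t - 1 - 1 - (j : ℤ) := by push_cast; ring
      rw [e] at this; exact this

theorem ROK_of_get (v : ℕ) : ∀ (D : List (ℕ × ℕ)) (t : ℤ),
    (∀ j (h : j < D.length), RowOK v (t - 1 - j) (D[j]).2) → ROK v D t := by
  intro D
  induction D with
  | nil => intro t _; trivial
  | cons d D ih =>
    intro t h
    refine ⟨?_, ih (t - 1) ?_⟩
    · have := h 0 (by simp)
      simpa using this
    · intro j hj
      have := h (j + 1) (by simpa using hj)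
      simp only [List.getElem_cons_succ] at this
      have e : t - 1 - ((j + 1 : ℕ) : ℤ) = t - 1 - 1 - (j : ℤ) := by push_cast; ring
      rw [e] at this; exact this

theorem BD_two (v : ℕ) (W : ℤ) (n : ℕ) : ∀ (Fs : List ℕ) (t : ℤ),
    2 * (t - 1) + v * ((n + 1 : ℕ) : ℤ) < W → BD v W (two Fs) t n := by
  intro Fs
  induction Fs with
  | nil => intro t _; trivial
  | cons F Fs ih =>
    intro t h
    exact ⟨h, ih (t - 1) (by omega)⟩

theorem tk_eq : ∀ (w : ℕ) (L : List ℕ), tk w L = L.take w := by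
  intro w
  induction w with
  | zero => intro L; simp [tk]
  | succ w ih =>
    intro L
    cases L with
    | nil => simp [tk]
    | cons F Fs =>
      have h : tk (w + 1) (F :: Fs) = F :: tk w Fs := rfl
      rw [h, ih]; simp

theorem allDie_sound (q w b : ℕ) : ∀ (c : ℕ) (L : List ℕ), allDie q w b c L = true →
    ∀ k < c, ∃ (h : k < L.length), dieTop q w b L[k] (L.drop (k + 1)) = true := by
  intro c
  induction c with
  | zero => intro L _ k hk; omega
  | succ c ih =>
    intro L h k hk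
    cases L with
    | nil => exact absurd h (by simp [allDie])
    | cons F Fs =>
      have h1 : andb (dieTop q w b F Fs) (allDie q w b c Fs) = true := h
      rw [andb_iff] at h1
      rcases k with _ | k
      · exact ⟨by simp, by simpa using h1.1⟩
      · obtain ⟨h2, h3⟩ := ih Fs h1.2 k (by omega)
        exact ⟨by simpa using h2, by simpa using h3⟩

theorem tryAll_of (k : ℕ → ℕ → Bool) (b F d m : ℕ) : ∀ n : ℕ,
    (∀ a < n, sp (k (d + m * a)) b ((d + m * a) &&& F) = true) → tryAll k b F d m n = true := by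
  intro n
  induction n with
  | zero => intro _; rfl
  | succ n ih =>
    intro h
    have h1 : tryAll k b F d m (n + 1) = andb (frc (d + m * n) (fun H => sp (k H) b (H &&& F)))
      (tryAll k b F d m n) := rfl
    rw [h1, andb_iff, frc_eq]
    exact ⟨h n (by omega), ih (fun a ha => h a (by omega))⟩

/-- The first level, from its parts. -/
theorem run_first (fin : ℕ → ℕ → Bool) (n F b : ℕ) (ls : List Lev)
    (h : ∀ a < n, sp (run fin ls a) b (a &&& F) = true) : run fin (Lev.mk 1 n F :: ls) 0 b = true := by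
  have h1 : run fin (Lev.mk 1 n F :: ls) 0 b =
    frc (dn 1 0) (fun d => tryAll (run fin ls) b F d 1 n) := rfl
  have h2 : dn 1 0 = 0 := by rfl
  rw [h1, frc_eq, h2]
  apply tryAll_of
  intro a ha
  simpa using h a ha

/-- The window argument. -/
theorem late_card (bd : ℕ) (v : ℕ) (hodd : v % 2 = 1) (hv5 : 5 ≤ v) (W K : ℤ) (hW : W ≤ K) (n w : ℕ) (hw : w < v)
    (hWn : 2 * ((v : ℤ) - 1) + v * ((n + 1 : ℕ) : ℤ) < W) (hn : 4 ≤ n)
    (D : List (ℕ × ℕ)) (hD : D ≠ []) (hnE : nEnd 0 D = n + 2)
    (Fs : List ℕ) (hlen : D.length + Fs.length ≤ v)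
    (chk : run (zeroOr (die (2 ^ (n + 2)) Fs)) (lv 0 D) 0 bd = true)
    (h1 : ROK v D D.length) (h2 : BD v W D D.length 0)
    (h3 : ROK v (two Fs) 0) (h4 : BD v W (two Fs) 0 (n + 2))
    (hdown : ∀ t : ℕ, t < v → ∃ (F : ℕ) (L : List ℕ), L.length ≤ w ∧
      tryAll (die (2 ^ n) L) bd F (2 ^ n) (2 ^ n) 3 = true ∧
      ROK v (two (F :: L)) ((t : ℤ) + 1)) :
    bd < (coin (fun j => XZ v (K - j)) v W).card := by
  by_contra hno
  have hc : (coin (fun j => XZ v (K - j)) v W).card ≤ bd := by omega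
  have hbase := base_sound bd v hodd W K hW D hD Fs hlen (by rw [hnE]; exact chk) h1 h2 h3
    (by rw [hnE]; exact h4) hc
  rw [hnE] at hbase
  -- row `v` is empty
  have hv : row (fun j => XZ v (K - j)) v v (n + 2) = 0 := by
    apply Nat.eq_of_testBit_eq
    intro i
    rw [row_testBit, Nat.zero_testBit]
    by_cases hi : i < n + 2
    · have h5 := congrArg (fun x => x.testBit (i + 2)) hbase
      simp only [row_testBit, Nat.zero_testBit] at h5
      have d : decide (i + 2 < n + 2 + 2) = true := by simp; omega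
      rw [d, Bool.true_and] at h5
      have e : 2 * (v : ℤ) + v * (i : ℤ) = 2 * 0 + v * ((i + 2 : ℕ) : ℤ) := by push_cast; ring
      simp only [e, h5, Bool.and_false]
    · simp [hi]
  have hall : ∀ s : ℕ, s ≤ v → row (fun j => XZ v (K - j)) v ((v - s : ℕ) : ℤ) (n + 2) = 0 := by
    intro s
    induction s with
    | zero => intro _; simpa using hv
    | succ s ih =>
      intro hs
      have h5 := ih (by omega)
      obtain ⟨F, L, hL, hchk, hrok⟩ := hdown (v - (s + 1)) (by omega)
      have e : (((v - (s + 1) : ℕ) : ℤ)) + 1 = ((v - s : ℕ) : ℤ) := by omega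
      refine down_sound bd v hodd W K hW n _ F L (by omega) hchk hrok ?_ hc (by rw [e]; exact h5)
      apply BD_two
      have : ((v - (s + 1) : ℕ) : ℤ) ≤ v - 1 := by omega
      omega
  have hz : ∀ t : ℕ, t < v → ∀ i : ℕ, i < n + 2 → XZ v (K - (2 * t + v * i)) = false := by
    intro t ht i hi
    have h5 := hall (v - t) (by omega)
    have e : v - (v - t) = t := by omega
    rw [e] at h5
    have h6 := congrArg (fun x => x.testBit i) h5
    simp only [row_testBit, Nat.zero_testBit] at h6
    have d : decide (i < n + 2) = true := by simpa using hi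
    rw [d, Bool.true_and] at h6
    exact h6
  refine no_gap v (by omega) (K - (3 * v + 1)) ?_ ?_
  · have : (v : ℤ) * 5 ≤ v * ((n + 1 : ℕ) : ℤ) :=
      mul_le_mul_of_nonneg_left (by omega) (by omega)
    omega
  · intro j hj1 hj2
    obtain ⟨m, hm⟩ : ∃ m : ℕ, K - j = m := ⟨(K - j).toNat, by omega⟩
    have hj : j = K - m := by omega
    rw [hj]
    rcases Nat.mod_two_eq_zero_or_one m with hp | hp
    · by_cases hlt : m / 2 < v
      · have := hz (m / 2) hlt 0 (by omega)
        have e : 2 * ((m / 2 : ℕ) : ℤ) + v * ((0 : ℕ) : ℤ) = m := by push_cast; omega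
        rw [e] at this; exact this
      · have := hz (m / 2 - v) (by omega) 2 (by omega)
        have e : 2 * ((m / 2 - v : ℕ) : ℤ) + v * ((2 : ℕ) : ℤ) = m := by push_cast; omega
        rw [e] at this; exact this
    · by_cases hlt : (m - v) / 2 < v
      · have := hz ((m - v) / 2) hlt 1 (by omega)
        have e : 2 * (((m - v) / 2 : ℕ) : ℤ) + v * ((1 : ℕ) : ℤ) = m := by push_cast; omega
        rw [e] at this; exact this
      · have := hz ((m - v) / 2 - v) (by omega) 3 (by omega)
        have e : 2 * (((m - v) / 2 - v : ℕ) : ℤ) + v * ((3 : ℕ) : ℤ) = m := by push_cast; omega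
        rw [e] at this; exact this

end Pool.Agent.H65.Ul
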