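import Pool.Agent.H65.Ul.Price

/-!
# The late window: at least four coincidences
-/

set_option autoImplicit false

namespace Pool.Agent.H65.Ul

open Finset

/-- A row below the actual row. -/
def RowOK (v : ℕ) (t : ℤ) (F : ℕ) : Prop :=
  ∀ i : ℕ, F.testBit i = true → XZ v (2 * t + v * i) = true

/-- All rows of a list of levels are below the actual rows. -/
def ROK (v : ℕ) : List (ℕ × ℕ) → ℤ → Prop
  | [], _ => True
  | d :: D, t => RowOK v (t - 1) d.2 ∧ ROK v D (t - 1)

/-- All cells of a list of levels are before the position `W`. -/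
def BD (v : ℕ) (W : ℤ) : List (ℕ × ℕ) → ℤ → ℕ → Prop
  | [], _, _ => True
  | d :: D, t, n => 2 * (t - 1) + v * ((n + 1 + d.1 : ℕ) : ℤ) < W ∧ BD v W D (t - 1) (n + d.1)

/-- The set of coincidences. -/
noncomputable def coin (z : ℤ → Bool) (v : ℕ) (W : ℤ) : Finset ℤ :=
  (Finset.Ico 0 W).filter (fun j => (XZ v j && z j) = true)

theorem good_of (z : ℤ → Bool) (v : ℕ) (W K : ℤ) (hW : W ≤ K) (D : List (ℕ × ℕ)) :
    ∀ (t : ℤ) (n : ℕ), ROK v D t → BD v W D t n → Good z v (coin z v W) K D t n := by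
  induction D with
  | nil => intro t n _ _; trivial
  | cons d D ih =>
    intro t n h1 h2
    have key : ∀ i : ℕ, i < n + 2 + d.1 → 2 * (t - 1) + v * (i : ℤ) < W := by
      intro i hi
      have h3 : (v : ℤ) * (i : ℤ) ≤ v * ((n + 1 + d.1 : ℕ) : ℤ) :=
        mul_le_mul_of_nonneg_left (by omega) (by omega)
      have := h2.1
      omega
    refine ⟨⟨?_, ?_⟩, ih _ _ h1.2 h2.2⟩
    · intro i hi hF hz
      unfold coin
      have hx := h1.1 i hF
      rw [mem_filter, mem_Ico]
      refine ⟨⟨?_, key i hi⟩, by rw [hx, hz]; rfl⟩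
      by_contra hneg
      rw [XZ_neg v (by omega)] at hx
      exact Bool.noConfusion hx
    · intro i hi
      have := key i (by omega)
      omega

theorem price_append (z : ℤ → Bool) (v : ℕ) (D D' : List (ℕ × ℕ)) : ∀ (t : ℤ) (n : ℕ),
    price z v (D ++ D') t n = price z v D t n + price z v D' (t - D.length) (nEnd n D) := by
  induction D with
  | nil => intro t n; simp [price, nEnd]
  | cons d D ih =>
    intro t n
    simp only [List.cons_append, price, nEnd, List.length_cons]
    rw [ih]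
    have e2 : t - ((D.length + 1 : ℕ) : ℤ) = t - 1 - (D.length : ℤ) := by push_cast; ring
    rw [e2]; ring

theorem good_append (z : ℤ → Bool) (v : ℕ) (c : Finset ℤ) (K : ℤ) (D D' : List (ℕ × ℕ)) :
    ∀ (t : ℤ) (n : ℕ), Good z v c K D t n → Good z v c K D' (t - D.length) (nEnd n D) →
    Good z v c K (D ++ D') t n := by
  induction D with
  | nil => intro t n _ h; simpa [nEnd] using h
  | cons d D ih =>
    intro t n h h'
    simp only [List.cons_append]
    refine ⟨h.1, ih _ _ h.2 ?_⟩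
    simp only [nEnd, List.length_cons] at h'
    have e2 : t - ((D.length + 1 : ℕ) : ℤ) = t - 1 - (D.length : ℤ) := by push_cast; ring
    rw [e2] at h'; exact h'

/-- Levels with two new columns each. -/
def two (Fs : List ℕ) : List (ℕ × ℕ) := Fs.map (fun F => (0, F))

theorem die_eq (n : ℕ) (Fs : List ℕ) :
    die (2 ^ n) Fs = run (fun _ _ => false) (lv n (two Fs)) := by
  induction Fs with
  | nil => rfl
  | cons F Fs ih =>
    funext G b
    have h1 : die (2 ^ n) (F :: Fs) G b =
      frc (dn (2 ^ n) G) (fun d => tryAll (die (2 ^ n) Fs) b F d (2 ^ n) 4) := rfl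
    have h2 : run (fun _ _ => false) (lv n (two (F :: Fs))) G b =
      frc (dn (2 ^ n) G) (fun d => tryAll (run (fun _ _ => false) (lv n (two Fs))) b F d (2 ^ n) 4) :=
      rfl
    rw [h1, h2, ih]

theorem nEnd_two (n : ℕ) (Fs : List ℕ) : nEnd n (two Fs) = n := by
  induction Fs with
  | nil => rfl
  | cons F Fs ih => exact ih

/-- A row which must die contradicts the bound on the price. -/
theorem die_sound (z : ℤ → Bool) (v : ℕ) (c : Finset ℤ) (K : ℤ)
    (hz : ∀ j < K, z j = E (z (j + 2)) (z (j + (v + 2))) (z (j + (2 * v + 2))))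
    (n : ℕ) (Fs : List ℕ) (t : ℤ) (b : ℕ) (h : die (2 ^ n) Fs (row z v t (n + 2)) b = true)
    (hg : Good z v c K (two Fs) t n) (hp : price z v (two Fs) t n ≤ b) : False := by
  rw [die_eq] at h
  obtain ⟨b', _, hf⟩ := plane_sound z v c K hz _ _ t n b h hg hp
  exact Bool.noConfusion hf

theorem run_zero (fin : ℕ → ℕ → Bool) (D : List (ℕ × ℕ)) (hD : D ≠ []) (G b : ℕ) :
    run fin (lv 0 D) G b = run fin (lv 0 D) 0 b := by
  cases D with
  | nil => exact absurd rfl hD
  | cons d D =>
    have h : ∀ G, dn (2 ^ 0) G = 0 := by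
      intro G
      have : dn (2 ^ 0) G = (((G ^^^ (G >>> 1)) ^^^ (G >>> 2)) ^^^ ((G &&& (G >>> 1)) &&& (G >>> 2)))
        % 1 := rfl
      rw [this, Nat.mod_one]
    have h2 : ∀ G, run fin (lv 0 (d :: D)) G b = frc (dn (2 ^ 0) G)
      (fun e => tryAll (run fin (lv (0 + d.1) D)) b d.2 e (2 ^ 0) (2 ^ (d.1 + 2))) := fun _ => rfl
    rw [h2, h2, h, h]

/-- The base: row `0` is empty. -/
theorem base_sound (bd : ℕ) (v : ℕ) (hodd : v % 2 = 1) (W K : ℤ) (hW : W ≤ K) (D : List (ℕ × ℕ))
    (hD : D ≠ []) (Fs : List ℕ) (hlen : D.length + Fs.length ≤ v)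
    (chk : run (zeroOr (die (2 ^ nEnd 0 D) Fs)) (lv 0 D) 0 bd = true)
    (h1 : ROK v D D.length) (h2 : BD v W D D.length 0)
    (h3 : ROK v (two Fs) 0) (h4 : BD v W (two Fs) 0 (nEnd 0 D))
    (hc : (coin (fun j => XZ v (K - j)) v W).card ≤ bd) :
    row (fun j => XZ v (K - j)) v 0 (nEnd 0 D + 2) = 0 := by
  set z : ℤ → Bool := fun j => XZ v (K - j) with hzdef
  have hz : ∀ j < K, z j = E (z (j + 2)) (z (j + (v + 2))) (z (j + (2 * v + 2))) := by
    intro j hj
    simp only [hzdef]
    rw [XZ_rec v (by omega : K - j ≠ 0)]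
    congr 2 <;> ring
  have hg1 := good_of z v W K hW D D.length 0 h1 h2
  have hg2 := good_of z v W K hW (two Fs) 0 (nEnd 0 D) h3 h4
  have hg : Good z v (coin z v W) K (D ++ two Fs) D.length 0 :=
    good_append _ _ _ _ _ _ _ _ hg1 (by simpa using hg2)
  have hp := price_le_card z v hodd (coin z v W) K (D ++ two Fs) D.length 0
    (by simpa [two] using hlen) hg
  have hp2 : price z v (D ++ two Fs) D.length 0 ≤ bd := hp.trans hc
  rw [price_append] at hp2
  have e0 : ((D.length : ℕ) : ℤ) - D.length = 0 := by ring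
  rw [e0] at hp2
  have hrun : run (zeroOr (die (2 ^ nEnd 0 D) Fs)) (lv 0 D) (row z v D.length (0 + 2)) bd = true := by
    rw [run_zero _ _ hD]; exact chk
  obtain ⟨b', hb', hf⟩ := plane_sound z v (coin z v W) K hz _ D _ 0 bd hrun hg1 (by omega)
  rw [e0] at hf
  rcases zeroOr_iff _ _ _ hf with h | h
  · exact h
  · exact (die_sound z v (coin z v W) K hz (nEnd 0 D) Fs 0 b' h hg2 (by omega)).elim

/-- One step down. -/
theorem down_sound (bd : ℕ) (v : ℕ) (hodd : v % 2 = 1) (W K : ℤ) (hW : W ≤ K) (n : ℕ) (t : ℤ)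
    (F : ℕ) (Fs : List ℕ) (hlen : Fs.length < v)
    (chk : tryAll (die (2 ^ n) Fs) bd F (2 ^ n) (2 ^ n) 3 = true)
    (h3 : ROK v (two (F :: Fs)) (t + 1)) (h4 : BD v W (two (F :: Fs)) (t + 1) n)
    (hc : (coin (fun j => XZ v (K - j)) v W).card ≤ bd)
    (hrow : row (fun j => XZ v (K - j)) v (t + 1) (n + 2) = 0) :
    row (fun j => XZ v (K - j)) v t (n + 2) = 0 := by
  set z : ℤ → Bool := fun j => XZ v (K - j) with hzdef
  have hz : ∀ j < K, z j = E (z (j + 2)) (z (j + (v + 2))) (z (j + (2 * v + 2))) := by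
    intro j hj
    simp only [hzdef]
    rw [XZ_rec v (by omega : K - j ≠ 0)]
    congr 2 <;> ring
  have hg := good_of z v W K hW (two (F :: Fs)) (t + 1) n h3 h4
  have hp := price_le_card z v hodd (coin z v W) K (two (F :: Fs)) (t + 1) n
    (by simpa [two] using hlen) hg
  have hp2 : price z v (two (F :: Fs)) (t + 1) n ≤ bd := hp.trans hc
  have hp3 : (bits (row z v t (n + 2) &&& F)).card + price z v (two Fs) t n ≤ bd := by
    have : price z v (two (F :: Fs)) (t + 1) n =
      (bits (row z v (t + 1 - 1) (n + 2 + 0) &&& F)).card + price z v (two Fs) (t + 1 - 1) (n + 0) :=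
      rfl
    rw [this] at hp2
    simpa using hp2
  have hg2 : Good z v (coin z v W) K (two Fs) t n := by
    have h := hg.2
    have e : t + 1 - 1 = t := by ring
    rw [e] at h
    exact h
  obtain ⟨a, ha, hR⟩ := row_link z v (t + 1) n 0 (fun i hi => by
    apply hz
    have := hg.1.2 i hi
    exact this)
  have e1 : t + 1 - 1 = t := by ring
  rw [e1, hrow] at hR
  have hdn : dn (2 ^ n) 0 = 0 := by
    apply Nat.eq_of_testBit_eq
    intro i
    rw [dn_testBit]
    simp [E]
  rw [hdn, Nat.zero_add, Nat.add_zero] at hR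
  rcases Nat.eq_zero_or_pos a with h0 | h0
  · rw [hR, h0, Nat.mul_zero]
  · exfalso
    have h5 := tryAll_sound _ _ _ _ _ _ chk (a - 1) (by simp at ha; omega)
    have h6 : 2 ^ n + 2 ^ n * (a - 1) = 2 ^ n * a := by
      obtain ⟨a', rfl⟩ : ∃ a', a = a' + 1 := ⟨a - 1, by omega⟩
      simp; ring
    rw [h6, ← hR] at h5
    obtain ⟨b', hb', hk⟩ := sp_sound _ _ _ h5 (by omega)
    exact die_sound z v (coin z v W) K hz n Fs t b' hk hg2 (by omega)

/-- Infinitely many ones, with bounded gaps. -/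
theorem no_gap (v : ℕ) (hv : 0 < v) (a : ℤ) (ha : 0 ≤ a) (h : ∀ j : ℤ, a ≤ j → j < a + (2 * v + 2) → XZ v j = false) :
    False := by
  have hex : ∃ q : ℤ, q < a ∧ XZ v q = true ∧ ∀ j, q < j → j < a + (2 * v + 2) → XZ v j = false := by
    have h0 : 0 < a := by
      rcases lt_or_eq_of_le ha with h1 | h1
      · exact h1
      · exfalso
        have := h 0 (by omega) (by omega)
        rw [XZ_zero] at this
        exact Bool.noConfusion this
    have hP : ∃ m : ℕ, XZ v (a - 1 - m) = true := ⟨(a - 1).toNat, by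
      have : a - 1 - ((a - 1).toNat : ℤ) = 0 := by omega
      rw [this, XZ_zero]⟩
    refine ⟨a - 1 - (Nat.find hP : ℤ), by omega, Nat.find_spec hP, ?_⟩
    intro j h1 h2
    by_cases h3 : a ≤ j
    · exact h j h3 h2
    · have h4 : (a - 1 - j).toNat < Nat.find hP := by omega
      have h5 := Nat.find_min hP h4
      have e : a - 1 - ((a - 1 - j).toNat : ℤ) = j := by omega
      rw [e] at h5
      simpa using h5
  obtain ⟨q, hq, hq1, hq2⟩ := hex
  have h1 := hq2 (q + (2 * v + 2)) (by omega) (by omega)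
  have hq0 : 0 ≤ q := by
    by_contra hneg
    rw [XZ_neg v (by omega)] at hq1
    exact Bool.noConfusion hq1
  rw [XZ_rec v (by omega)] at h1
  have e1 : q + (2 * (v : ℤ) + 2) - 2 = q + 2 * v := by ring
  have e2 : q + (2 * (v : ℤ) + 2) - (v + 2) = q + v := by ring
  have e3 : q + (2 * (v : ℤ) + 2) - (2 * v + 2) = q := by ring
  rw [e1, e2, e3, hq1] at h1
  rw [hq2 (q + 2 * v) (by omega) (by omega), hq2 (q + v) (by omega) (by omega)] at h1
  exact Bool.noConfusion h1

end Pool.Agent.H65.Ul
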