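import Mathlib.Data.Nat.Notation
import Mathlib.Tactic.TypeStar

/-!
# A checking machine for coincidences of two rows of a cellular automaton

Rows are natural numbers (bit `i` = column `i`).  The unknown row evolves by the rule
exactly one of the three cells `i`, `i + 1`, `i + 2`, with free new columns on the right;
every common bit of the unknown row and of the known row is paid from a budget.
-/

set_option autoImplicit false

namespace Pool.Agent.H65.Ul

/-- Force the evaluation of a number. -/
noncomputable def frc (n : Nat) (k : Nat → Bool) : Bool :=
  Nat.rec (motive := fun _ => Bool) (k 0) (fun m _ => k (Nat.succ m)) n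

/-- Conjunction, evaluated from the left. -/
noncomputable def andb (x y : Bool) : Bool :=
  Bool.rec (motive := fun _ => Bool) false y x

/-- The known part of the next row, below the bit of `m`. -/
noncomputable def dn (m G : Nat) : Nat :=
  Nat.mod (Nat.xor (Nat.xor (Nat.xor G (Nat.shiftRight G 1)) (Nat.shiftRight G 2))
    (Nat.land (Nat.land G (Nat.shiftRight G 1)) (Nat.shiftRight G 2))) m

/-- Pay one unit for every bit of the number; `true` if the budget does not suffice. -/
noncomputable def sp (k : Nat → Bool) : Nat → Nat → Bool :=
  Nat.rec (motive := fun _ => Nat → Bool)
    (fun n => Nat.rec (motive := fun _ => Bool) (k 0) (fun _ _ => true) n)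
    (fun b ih n => Nat.rec (motive := fun _ => Bool) (k (Nat.succ b))
      (fun n' _ => ih (Nat.land (Nat.succ n') n')) n)

/-- All choices `a < n` of the free part `m * a` of the next row. -/
noncomputable def tryAll (k : Nat → Nat → Bool) (b F d m n : Nat) : Bool :=
  Nat.rec (motive := fun _ => Bool) true
    (fun a ih => andb (frc (Nat.add d (Nat.mul m a)) (fun H => sp (k H) b (Nat.land H F))) ih) n

/-- A level: modulus, number of free parts, known row. -/
inductive Lev where
  | mk : Nat → Nat → Nat → Lev

/-- The machine: all rows reachable within the budget satisfy `fin` at the end. -/
noncomputable def run (fin : Nat → Nat → Bool) : List Lev → Nat → Nat → Bool :=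
  List.rec (motive := fun _ => Nat → Nat → Bool) fin
    (fun l _ ih G b => Lev.rec (motive := fun _ => Bool)
      (fun m n F => frc (dn m G) (fun d => tryAll ih b F d m n)) l)

/-- The empty row, or a row which cannot be continued within the budget. -/
noncomputable def zeroOr (k : Nat → Nat → Bool) (G b : Nat) : Bool :=
  Nat.rec (motive := fun _ => Bool) true (fun _ _ => k G b) G

/-- A row which cannot be continued through the known rows within the budget
(`q` is the bit of the first new column, two new columns in every row). -/
noncomputable def die (q : Nat) : List Nat → Nat → Nat → Bool :=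
  List.rec (motive := fun _ => Nat → Nat → Bool) (fun _ _ => false)
    (fun F _ ih G b => frc (dn q G) (fun d => tryAll ih b F d q 4))

/-- First elements of a list. -/
noncomputable def tk : Nat → List Nat → List Nat :=
  Nat.rec (motive := fun _ => List Nat → List Nat) (fun _ => [])
    (fun _ ih L => List.rec (motive := fun _ => List Nat) [] (fun F Fs _ => F :: ih Fs) L)

/-- After an empty row, the next row is empty: every other choice dies within `w` rows. -/
noncomputable def dieTop (q w b F : Nat) (Fs : List Nat) : Bool :=
  tryAll (die q (tk w Fs)) b F q q 3

/-- The same for the first `c` rows of the list. -/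
noncomputable def allDie (q w b : Nat) : Nat → List Nat → Bool :=
  Nat.rec (motive := fun _ => List Nat → Bool) (fun _ => true)
    (fun _ ih L => List.rec (motive := fun _ => Bool) false
      (fun F Fs _ => andb (dieTop q w b F Fs) (ih Fs)) L)

end Pool.Agent.H65.Ul
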