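import Pool.Agent.H65.Ul.Late

/-!
# The actual rows
-/

set_option autoImplicit false

namespace Pool.Agent.H65.Ul

open Finset

/-- Next row of the known pattern (`n` columns). -/
def up (n G : ℕ) : ℕ :=
  (((G ^^^ (G <<< 1)) ^^^ (G <<< 2)) ^^^ ((G &&& (G <<< 1)) &&& (G <<< 2))) % 2 ^ n

theorem up_testBit (n G i : ℕ) : (up n G).testBit i =
    (decide (i < n) && E (G.testBit i) (decide (1 ≤ i) && G.testBit (i - 1))
      (decide (2 ≤ i) && G.testBit (i - 2))) := by
  unfold up
  rw [Nat.testBit_mod_two_pow]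
  simp only [Nat.testBit_xor, Nat.testBit_and, Nat.testBit_shiftLeft, E, ge_iff_le]

/-- The rows. -/
def P (n p0 : ℕ) : ℕ → ℕ
  | 0 => p0
  | t + 1 => up n (P n p0 t)

theorem XZ_odd_small (v : ℕ) : ∀ m : ℕ, (m : ℤ) < v + 2 → m % 2 = 1 → XZ v m = false := by
  intro m
  induction m using Nat.strong_induction_on with
  | _ m ih =>
    intro h1 h2
    rw [XZ_rec v (by omega), XZ_neg v (by omega : (m : ℤ) - (v + 2) < 0),
      XZ_neg v (by omega : (m : ℤ) - (2 * v + 2) < 0)]
    by_cases h3 : m = 1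
    · rw [h3, XZ_neg v (by norm_num)]; rfl
    · have := ih (m - 2) (by omega) (by omega) (by omega)
      have e : ((m - 2 : ℕ) : ℤ) = (m : ℤ) - 2 := by omega
      rw [e] at this
      rw [this]; rfl

theorem XZ_odd_small' (v : ℕ) (j : ℤ) (h1 : j < v + 2) (h2 : j % 2 = 1) : XZ v j = false := by
  by_cases h : 0 ≤ j
  · have e : j = ((j.toNat : ℕ) : ℤ) := by omega
    rw [e]
    exact XZ_odd_small v _ (by omega) (by omega)
  · exact XZ_neg v (by omega)

/-- The step of the known pattern. -/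
theorem P_step (v n p0 : ℕ) (hodd : v % 2 = 1) (s : ℕ) (hs : s < v) (i : ℕ) (hi : i < n)
    (ih : ∀ i' < n, i' ≤ i → XZ v (2 * (s : ℤ) + v * (i' : ℤ)) = (P n p0 s).testBit i') :
    XZ v (2 * ((s : ℤ) + 1) + v * (i : ℤ)) = (P n p0 (s + 1)).testBit i := by
  have hne : 2 * ((s : ℤ) + 1) + v * (i : ℤ) ≠ 0 := by positivity
  rw [XZ_rec v hne]
  rw [P, up_testBit]
  have e1 : 2 * ((s : ℤ) + 1) + v * (i : ℤ) - 2 = 2 * s + v * i := by ring
  have e2 : 2 * ((s : ℤ) + 1) + v * (i : ℤ) - (v + 2) = 2 * s + v * (i - 1) := by ring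
  have e3 : 2 * ((s : ℤ) + 1) + v * (i : ℤ) - (2 * v + 2) = 2 * s + v * (i - 2) := by ring
  rw [e1, e2, e3, ih i hi le_rfl]
  have d : decide (i < n) = true := by simpa using hi
  rw [d, Bool.true_and]
  rcases i with _ | _ | i
  · have h1 : XZ v (2 * (s : ℤ) + v * (((0 : ℕ) : ℤ) - 1)) = false := by
      apply XZ_odd_small'
      · push_cast; omega
      · push_cast; omega
    have h2 : XZ v (2 * (s : ℤ) + v * (((0 : ℕ) : ℤ) - 2)) = false := by
      apply XZ_neg; push_cast; omega
    rw [h1, h2]; simp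
  · have h2 : XZ v (2 * (s : ℤ) + v * (((0 + 1 : ℕ) : ℤ) - 2)) = false := by
      apply XZ_odd_small'
      · push_cast; omega
      · push_cast; omega
    have h1 := ih 0 (by omega) (by omega)
    have e4 : (((0 + 1 : ℕ) : ℤ) - 1) = ((0 : ℕ) : ℤ) := by simp
    rw [h2, e4, h1]; simp
  · have h1 := ih (i + 1) (by omega) (by omega)
    have h2 := ih i (by omega) (by omega)
    have e4 : (((i + 1 + 1 : ℕ) : ℤ) - 1) = ((i + 1 : ℕ) : ℤ) := by push_cast; ring
    have e5 : (((i + 1 + 1 : ℕ) : ℤ) - 2) = ((i : ℕ) : ℤ) := by push_cast; ring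
    rw [e4, e5, h1, h2]
    have d1 : decide (1 ≤ i + 1 + 1) = true := by simp
    have d2 : decide (2 ≤ i + 1 + 1) = true := by simp
    rw [d1, d2, Bool.true_and, Bool.true_and]
    rfl

/-- The known pattern. -/
theorem P_spec (v n p0 : ℕ) (hodd : v % 2 = 1) (h0 : p0.testBit 0 = true)
    (h1 : p0.testBit 1 = false)
    (hcl : ∀ i, i + 2 < n → p0.testBit (i + 2) = (P n p0 v).testBit i) :
    ∀ m : ℕ, ∀ t < v, ∀ i < n, 2 * t + v * i = m →
      XZ v (2 * (t : ℤ) + v * (i : ℤ)) = (P n p0 t).testBit i := by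
  intro m
  induction m using Nat.strong_induction_on with
  | _ m ih =>
    intro t ht i hi hm
    rcases t with _ | t
    · rcases i with _ | _ | i
      · have e : 2 * ((0 : ℕ) : ℤ) + v * ((0 : ℕ) : ℤ) = 0 := by simp
        rw [e, XZ_zero, P, h0]
      · rw [P, h1]
        apply XZ_odd_small'
        · push_cast; omega
        · push_cast; omega
      · obtain ⟨s, hs⟩ : ∃ s, v = s + 1 := ⟨v - 1, by omega⟩
        have h2 := P_step v n p0 hodd s (by omega) i (by omega) (by
          intro i' hi' hle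
          have h3 : v * i' ≤ v * i := Nat.mul_le_mul_left _ hle
          have h4 : v * (i + 2) = v * i + 2 * v := by ring
          have h5 : v * (i + 1 + 1) = v * i + 2 * v := by ring
          exact ih (2 * s + v * i') (by omega) s (by omega) i' hi' rfl)
        rw [← hs, ← hcl i (by omega)] at h2
        rw [P, ← h2]
        congr 1
        push_cast
        have e6 : (v : ℤ) = (s : ℤ) + 1 := by omega
        rw [e6]; ring
    · have h2 := P_step v n p0 hodd t (by omega) i hi (by
        intro i' hi' hle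
        have h3 : v * i' ≤ v * i := Nat.mul_le_mul_left _ hle
        exact ih (2 * t + v * i') (by omega) t (by omega) i' hi' rfl)
      rw [← h2]
      congr 1

/-- Periodicity. -/
theorem P_per (n p0 T p : ℕ) (h : P n p0 (T + p) = P n p0 T) : ∀ t, T ≤ t →
    P n p0 (t + p) = P n p0 t := by
  intro t ht
  induction t, ht using Nat.le_induction with
  | base => exact h
  | succ t _ ih =>
    have e : t + 1 + p = (t + p) + 1 := by ring
    rw [e, P, P, ih]

theorem P_per_mul (n p0 T p : ℕ) (h : P n p0 (T + p) = P n p0 T) (k : ℕ) : ∀ t, T ≤ t →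
    P n p0 (t + p * k) = P n p0 t := by
  intro t ht
  induction k with
  | zero => simp
  | succ k ih =>
    have e : t + p * (k + 1) = (t + p * k) + p := by ring
    rw [e, P_per n p0 T p h _ (by omega), ih]

end Pool.Agent.H65.Ul
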