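import Pool.Agent.H65.Ul.Rows

/-!
# Prices of a list of levels, bounded by a set of coincidences
-/

set_option autoImplicit false

namespace Pool.Agent.H65.Ul

open Finset

/-- Levels of the machine from the growth of the number of columns and the known rows. -/
def lv : ℕ → List (ℕ × ℕ) → List Lev
  | _, [] => []
  | n, d :: D => Lev.mk (2 ^ n) (2 ^ (d.1 + 2)) d.2 :: lv (n + d.1) D

/-- Final number of columns (minus two). -/
def nEnd : ℕ → List (ℕ × ℕ) → ℕ
  | n, [] => n
  | n, d :: D => nEnd (n + d.1) D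

/-- Total price. -/
def price (z : ℤ → Bool) (v : ℕ) : List (ℕ × ℕ) → ℤ → ℕ → ℕ
  | [], _, _ => 0
  | d :: D, t, n => (bits (row z v (t - 1) (n + 2 + d.1) &&& d.2)).card +
      price z v D (t - 1) (n + d.1)

/-- The known rows are below the coincidence set, and all cells are before the position `K`. -/
def Good (z : ℤ → Bool) (v : ℕ) (coin : Finset ℤ) (K : ℤ) : List (ℕ × ℕ) → ℤ → ℕ → Prop
  | [], _, _ => True
  | d :: D, t, n => ((∀ i : ℕ, i < n + 2 + d.1 → d.2.testBit i = true →
        z (2 * (t - 1) + v * i) = true → (2 * (t - 1) + v * i) ∈ coin) ∧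
      (∀ i : ℕ, i < n → 2 * (t - 1) + v * i < K)) ∧
      Good z v coin K D (t - 1) (n + d.1)

open Classical in
theorem price_le (z : ℤ → Bool) (v : ℕ) (hodd : v % 2 = 1) (coin : Finset ℤ) (K : ℤ)
    (D : List (ℕ × ℕ)) :
    ∀ (t : ℤ) (n : ℕ), D.length ≤ v → Good z v coin K D t n → price z v D t n ≤
      (coin.filter (fun j => ∃ s < D.length, ∃ i : ℕ, j = 2 * (t - 1 - s) + v * i)).card := by
  induction D with
  | nil => intro t n _ _; simp [price]
  | cons d D ih =>
    intro t n hv hg
    obtain ⟨⟨h1, _⟩, h2⟩ := hg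
    rw [List.length_cons] at hv
    have ih' := ih (t - 1) (n + d.1) (by omega) h2
    have hA : (bits (row z v (t - 1) (n + 2 + d.1) &&& d.2)).card ≤
        (coin.filter (fun j => ∃ i : ℕ, j = 2 * (t - 1) + v * i)).card := by
      apply Finset.card_le_card_of_injOn (fun i : ℕ => 2 * (t - 1) + v * (i : ℤ))
      · intro i hi
        rw [Finset.mem_coe, mem_bits, Nat.testBit_and, row_testBit] at hi
        simp only [Bool.and_eq_true, decide_eq_true_eq] at hi
        rw [Finset.mem_coe, mem_filter]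
        exact ⟨h1 i hi.1.1 hi.2 hi.1.2, i, rfl⟩
      · intro i _ j _ hij
        have h3 : (v : ℤ) * i = v * j := by
          simp only at hij; linarith
        have h4 : (v : ℤ) ≠ 0 := by omega
        exact_mod_cast mul_left_cancel₀ h4 h3
    have hdisj : Disjoint (coin.filter (fun j => ∃ i : ℕ, j = 2 * (t - 1) + v * i))
        (coin.filter (fun j => ∃ s < D.length, ∃ i : ℕ, j = 2 * (t - 1 - 1 - s) + v * i)) := by
      rw [Finset.disjoint_filter]
      rintro j _ ⟨i, hi⟩ ⟨s, hs, i', hi'⟩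
      have h3 : 2 * ((s : ℤ) + 1) = v * ((i' : ℤ) - i) := by
        rw [hi] at hi'; linarith
      obtain ⟨w, hw⟩ : ∃ w : ℕ, v = 2 * w + 1 := ⟨v / 2, by omega⟩
      obtain ⟨e, he⟩ : ∃ e : ℤ, (i' : ℤ) - i = 2 * e := by
        refine ⟨(s : ℤ) + 1 - w * ((i' : ℤ) - i), ?_⟩
        have : 2 * ((s : ℤ) + 1) = (2 * w + 1) * ((i' : ℤ) - i) := by
          rw [h3, hw]; push_cast; ring
        linarith
      have h5 : (s : ℤ) + 1 = v * e := by
        rw [he] at h3; linarith
      have h6 : 0 < e := by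
        by_contra hne
        have : (v : ℤ) * e ≤ 0 := mul_nonpos_of_nonneg_of_nonpos (by omega) (by omega)
        omega
      have h7 : (v : ℤ) * 1 ≤ v * e := mul_le_mul_of_nonneg_left (by omega) (by omega)
      omega
    have hsub : (coin.filter (fun j => ∃ i : ℕ, j = 2 * (t - 1) + v * i)) ∪
        (coin.filter (fun j => ∃ s < D.length, ∃ i : ℕ, j = 2 * (t - 1 - 1 - s) + v * i)) ⊆
        coin.filter (fun j => ∃ s < (d :: D).length, ∃ i : ℕ, j = 2 * (t - 1 - s) + v * i) := by
      intro j hj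
      rw [mem_union, mem_filter, mem_filter] at hj
      rw [mem_filter]
      rcases hj with ⟨hj, i, hi⟩ | ⟨hj, s, hs, i, hi⟩
      · exact ⟨hj, 0, by simp, i, by rw [hi]; simp⟩
      · exact ⟨hj, s + 1, by simpa using hs, i, by rw [hi]; push_cast; ring⟩
    calc price z v (d :: D) t n ≤ (coin.filter (fun j => ∃ i : ℕ, j = 2 * (t - 1) + v * i)).card +
          (coin.filter (fun j => ∃ s < D.length, ∃ i : ℕ, j = 2 * (t - 1 - 1 - s) + v * i)).card := by
            simp only [price]; omega
      _ = _ := (Finset.card_union_of_disjoint hdisj).symm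
      _ ≤ _ := card_le_card hsub

theorem price_le_card (z : ℤ → Bool) (v : ℕ) (hodd : v % 2 = 1) (coin : Finset ℤ) (K : ℤ)
    (D : List (ℕ × ℕ)) (t : ℤ) (n : ℕ) (h : D.length ≤ v) (hg : Good z v coin K D t n) :
    price z v D t n ≤ coin.card := by
  classical
  exact (price_le z v hodd coin K D t n h hg).trans (card_le_card (filter_subset _ _))

/-- Soundness of the machine on the rows of the plane. -/
theorem plane_sound (z : ℤ → Bool) (v : ℕ) (coin : Finset ℤ) (K : ℤ)
    (hz : ∀ j < K, z j = E (z (j + 2)) (z (j + (v + 2))) (z (j + (2 * v + 2))))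
    (fin : ℕ → ℕ → Bool) (D : List (ℕ × ℕ)) : ∀ (t : ℤ) (n b : ℕ),
    run fin (lv n D) (row z v t (n + 2)) b = true → Good z v coin K D t n →
    price z v D t n ≤ b →
    ∃ b', b ≤ b' + price z v D t n ∧ fin (row z v (t - D.length) (nEnd n D + 2)) b' = true := by
  induction D with
  | nil => intro t n b h _ _; exact ⟨b, by simp [price], by simpa [lv, nEnd, run] using h⟩
  | cons d D ih =>
    intro t n b h hg hp
    obtain ⟨⟨_, h1⟩, h2⟩ := hg
    have h3 : frc (dn (2 ^ n) (row z v t (n + 2))) (fun e => tryAll (run fin (lv (n + d.1) D)) b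
      d.2 e (2 ^ n) (2 ^ (d.1 + 2))) = true := h
    rw [frc_eq] at h3
    obtain ⟨a, ha, hR⟩ := row_link z v t n d.1 (fun i hi => hz _ (h1 i hi))
    have h4 := tryAll_sound _ _ _ _ _ _ h3 a ha
    rw [← hR] at h4
    simp only [price] at hp
    obtain ⟨b1, hb1, hk⟩ := sp_sound _ _ _ h4 (by omega)
    have e1 : n + 2 + d.1 = n + d.1 + 2 := by ring
    rw [e1] at hk hb1 hp
    obtain ⟨b2, hb2, hf⟩ := ih (t - 1) (n + d.1) b1 hk h2 (by omega)
    refine ⟨b2, ?_, ?_⟩
    · simp only [price]; rw [e1]; omega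
    · rw [List.length_cons]
      have e2 : t - ((D.length + 1 : ℕ) : ℤ) = t - 1 - (D.length : ℤ) := by push_cast; ring
      rw [e2]; exact hf

end Pool.Agent.H65.Ul
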