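import Pool.Agent.H65.Ul.Sound

/-!
# The sequence of the odd terms, and rows of the plane
-/

set_option autoImplicit false

namespace Pool.Agent.H65.Ul

open Finset

/-- The indicator of the odd terms `v + 2 * k`. -/
def X (v k : ℕ) : Bool :=
  if k = 0 then true
  else E (if _h : 2 ≤ k then X v (k - 2) else false)
    (if _h : v + 2 ≤ k then X v (k - (v + 2)) else false)
    (if _h : 2 * v + 2 ≤ k then X v (k - (2 * v + 2)) else false)
termination_by k

/-- The same on the integers. -/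
def XZ (v : ℕ) (j : ℤ) : Bool := if 0 ≤ j then X v j.toNat else false

theorem XZ_nat (v k : ℕ) : XZ v (k : ℤ) = X v k := by simp [XZ]

theorem XZ_neg (v : ℕ) {j : ℤ} (h : j < 0) : XZ v j = false := by
  simp [XZ, not_le.mpr h]

theorem XZ_zero (v : ℕ) : XZ v 0 = true := by
  unfold XZ X; simp

theorem XZ_rec (v : ℕ) {j : ℤ} (h : j ≠ 0) : XZ v j =
    E (XZ v (j - 2)) (XZ v (j - (v + 2))) (XZ v (j - (2 * v + 2))) := by
  rcases lt_or_gt_of_ne h with h0 | h0
  · rw [XZ_neg v h0, XZ_neg v (by omega), XZ_neg v (by omega), XZ_neg v (by omega)]; rfl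
  · obtain ⟨k, rfl⟩ := Int.eq_ofNat_of_zero_le h0.le
    have hk : k ≠ 0 := by omega
    rw [XZ_nat]
    rw [X, if_neg hk]
    have e1 : (if _h : 2 ≤ k then X v (k - 2) else false) = XZ v ((k : ℤ) - 2) := by
      by_cases h1 : 2 ≤ k
      · rw [dif_pos h1, ← XZ_nat]; congr 1; omega
      · rw [dif_neg h1, XZ_neg v (by omega)]
    have e2 : (if _h : v + 2 ≤ k then X v (k - (v + 2)) else false) = XZ v ((k : ℤ) - (v + 2)) := by
      by_cases h1 : v + 2 ≤ k
      · rw [dif_pos h1, ← XZ_nat]; congr 1; omega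
      · rw [dif_neg h1, XZ_neg v (by omega)]
    have e3 : (if _h : 2 * v + 2 ≤ k then X v (k - (2 * v + 2)) else false) =
        XZ v ((k : ℤ) - (2 * v + 2)) := by
      by_cases h1 : 2 * v + 2 ≤ k
      · rw [dif_pos h1, ← XZ_nat]; congr 1; omega
      · rw [dif_neg h1, XZ_neg v (by omega)]
    rw [e1, e2, e3]

/-- Row `t` with `n` columns. -/
def row (φ : ℤ → Bool) (v : ℕ) (t : ℤ) (n : ℕ) : ℕ :=
  Nat.ofBits (fun i : Fin n => φ (2 * t + v * (i : ℕ)))

theorem row_lt (φ : ℤ → Bool) (v : ℕ) (t : ℤ) (n : ℕ) : row φ v t n < 2 ^ n :=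
  Nat.ofBits_lt_two_pow _

theorem row_testBit (φ : ℤ → Bool) (v : ℕ) (t : ℤ) (n i : ℕ) :
    (row φ v t n).testBit i = (decide (i < n) && φ (2 * t + v * i)) := by
  unfold row
  rw [Nat.testBit_ofBits]
  by_cases h : i < n
  · simp [h]
  · simp [h]

theorem dn_testBit (n G i : ℕ) : (dn (2 ^ n) G).testBit i =
    (decide (i < n) && E (G.testBit i) (G.testBit (i + 1)) (G.testBit (i + 2))) := by
  have h : dn (2 ^ n) G = (((G ^^^ (G >>> 1)) ^^^ (G >>> 2)) ^^^ ((G &&& (G >>> 1)) &&& (G >>> 2)))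
    % 2 ^ n := rfl
  rw [h, Nat.testBit_mod_two_pow]
  simp only [Nat.testBit_xor, Nat.testBit_and, Nat.testBit_shiftRight, E, Nat.add_comm]

/-- The unknown row follows the machine. -/
theorem row_link (φ : ℤ → Bool) (v : ℕ) (t : ℤ) (n c : ℕ)
    (hφ : ∀ i : ℕ, i < n → φ (2 * (t - 1) + v * i) =
      E (φ (2 * (t - 1) + v * i + 2)) (φ (2 * (t - 1) + v * i + (v + 2)))
        (φ (2 * (t - 1) + v * i + (2 * v + 2)))) :
    ∃ a < 2 ^ (c + 2), row φ v (t - 1) (n + 2 + c) =
      dn (2 ^ n) (row φ v t (n + 2)) + 2 ^ n * a := by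
  refine ⟨row φ v (t - 1) (n + 2 + c) / 2 ^ n, ?_, ?_⟩
  · rw [Nat.div_lt_iff_lt_mul (by positivity), ← pow_add]
    have := row_lt φ v (t - 1) (n + 2 + c)
    have e : c + 2 + n = n + 2 + c := by ring
    rw [e]; exact this
  · have h : row φ v (t - 1) (n + 2 + c) % 2 ^ n = dn (2 ^ n) (row φ v t (n + 2)) := by
      apply Nat.eq_of_testBit_eq
      intro i
      rw [Nat.testBit_mod_two_pow, dn_testBit, row_testBit, row_testBit, row_testBit, row_testBit]
      by_cases hi : i < n
      · have e1 : decide (i < n) = true := by simpa using hi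
        have e2 : decide (i < n + 2 + c) = true := by simp; omega
        have e3 : decide (i < n + 2) = true := by simp; omega
        have e4 : decide (i + 1 < n + 2) = true := by simp; omega
        have e5 : decide (i + 2 < n + 2) = true := by simp; omega
        rw [e1, e2, e3, e4, e5]
        simp only [Bool.true_and]
        rw [hφ i hi]
        congr 2 <;> push_cast <;> ring
      · simp [hi]
    rw [← h]
    exact (Nat.mod_add_div _ _).symm

end Pool.Agent.H65.Ul
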