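import Pool.Agent.H65.Ul.Main4

/-!
# Small values of `v`: everything by explicit checks
-/

set_option autoImplicit false

namespace Pool.Agent.H65.Ul

open Finset

/-- The number `M` holds the first `n` values of the sequence. -/
def recOK (v M n : ℕ) : Prop := ∀ k < n, M.testBit k =
  (if k = 0 then true else E (decide (2 ≤ k) && M.testBit (k - 2))
    (decide (v + 2 ≤ k) && M.testBit (k - (v + 2)))
    (decide (2 * v + 2 ≤ k) && M.testBit (k - (2 * v + 2))))

instance (v M n : ℕ) : Decidable (recOK v M n) := by unfold recOK; infer_instance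

theorem recOK.spec {v M n : ℕ} (h : recOK v M n) : ∀ k < n, M.testBit k = X v k := by
  intro k
  induction k using Nat.strong_induction_on with
  | _ k ih =>
    intro hk
    rw [h k hk, X]
    by_cases h0 : k = 0
    · simp [h0]
    · rw [if_neg h0, if_neg h0]
      have e1 : (decide (2 ≤ k) && M.testBit (k - 2)) =
          (if _h : 2 ≤ k then X v (k - 2) else false) := by
        by_cases h1 : 2 ≤ k
        · rw [dif_pos h1, ih (k - 2) (by omega) (by omega)]; simp [h1]
        · simp [h1]
      have e2 : (decide (v + 2 ≤ k) && M.testBit (k - (v + 2))) =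
          (if _h : v + 2 ≤ k then X v (k - (v + 2)) else false) := by
        by_cases h1 : v + 2 ≤ k
        · rw [dif_pos h1, ih (k - (v + 2)) (by omega) (by omega)]; simp [h1]
        · simp [h1]
      have e3 : (decide (2 * v + 2 ≤ k) && M.testBit (k - (2 * v + 2))) =
          (if _h : 2 * v + 2 ≤ k then X v (k - (2 * v + 2)) else false) := by
        by_cases h1 : 2 * v + 2 ≤ k
        · rw [dif_pos h1, ih (k - (2 * v + 2)) (by omega) (by omega)]; simp [h1]
        · simp [h1]
      rw [e1, e2, e3]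

/-- Check of a row. -/
def rchk (v M n cols : ℕ) (t : ℤ) (F : ℕ) : Bool :=
  decide (F < 2 ^ cols) && (List.range cols).all (fun i => !F.testBit i ||
    (decide (0 ≤ 2 * t + v * i) && decide (2 * t + v * i < n) && M.testBit (2 * t + v * i).toNat))

theorem rchk_ok {v M n cols : ℕ} (hM : recOK v M n) {t : ℤ} {F : ℕ}
    (h : rchk v M n cols t F = true) : RowOK v t F := by
  intro i hi
  unfold rchk at h
  rw [Bool.and_eq_true, decide_eq_true_eq, List.all_eq_true] at h
  have hic : i < cols := by
    by_contra hc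
    have : F < 2 ^ i := h.1.trans_le (Nat.pow_le_pow_right (by norm_num) (by omega))
    rw [Nat.testBit_lt_two_pow this] at hi
    exact Bool.noConfusion hi
  have h2 := h.2 i (by simpa using hic)
  rw [hi] at h2
  simp only [Bool.not_true, Bool.false_or, Bool.and_eq_true, decide_eq_true_eq] at h2
  obtain ⟨⟨h3, h4⟩, h5⟩ := h2
  rw [hM.spec _ (by omega)] at h5
  unfold XZ
  rw [if_pos h3]; exact h5

/-- Clear the lowest bit. -/
def clr (n : ℕ) : ℕ := n &&& (n - 1)

theorem clr_card {n k : ℕ} (h : k ≤ (bits (clr n)).card) (h0 : n ≠ 0) :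
    k + 1 ≤ (bits n).card := by
  obtain ⟨m, rfl⟩ : ∃ m, n = m + 1 := Nat.exists_eq_succ_of_ne_zero h0
  have := bits_land_pred m
  unfold clr at h
  simp only [Nat.add_sub_cancel] at h
  omega

theorem four_bits {n : ℕ} (h : clr (clr (clr n)) ≠ 0) : 4 ≤ (bits n).card := by
  have h2 : clr (clr n) ≠ 0 := by intro h0; apply h; rw [h0]; rfl
  have h1 : clr n ≠ 0 := by intro h0; apply h2; rw [h0]; rfl
  have h0 : n ≠ 0 := by intro h0; apply h1; rw [h0]; rfl
  have k3 : 1 ≤ (bits (clr (clr (clr n)))).card := bits_card_pos h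
  exact clr_card (clr_card (clr_card k3 h2) h1) h0

/-- Check of a sum. -/
def pchk (M R n K : ℕ) : Bool := decide (clr (clr (clr (M &&& (R >>> (n - 1 - K))))) ≠ 0)

/-- `R` is the reversal of `M`. -/
def revOK (M R n : ℕ) : Prop := R < 2 ^ n ∧ ∀ k < n, R.testBit (n - 1 - k) = M.testBit k

instance (M R n : ℕ) : Decidable (revOK M R n) := by unfold revOK; infer_instance

theorem pchk_ok {v M R n K : ℕ} (hM : recOK v M n) (hR : revOK M R n) (hK : K < n)
    (h : pchk M R n K = true) : Two v K := by
  apply two_of_card v K (K + 1)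
  unfold pchk at h
  rw [decide_eq_true_eq] at h
  have h4 := four_bits h
  refine h4.trans ?_
  apply Finset.card_le_card_of_injOn (fun i : ℕ => (i : ℤ))
  · intro a ha
    rw [Finset.mem_coe, mem_bits, Nat.testBit_and, Nat.testBit_shiftRight, Bool.and_eq_true] at ha
    obtain ⟨h1, h2⟩ := ha
    have hKa : a ≤ K := by
      by_contra hc
      have : R < 2 ^ (n - 1 - K + a) := hR.1.trans_le (Nat.pow_le_pow_right (by norm_num) (by omega))
      rw [Nat.testBit_lt_two_pow this] at h2
      exact Bool.noConfusion h2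
    have e : n - 1 - K + a = n - 1 - (K - a) := by omega
    rw [e, hR.2 (K - a) (by omega), hM.spec _ (by omega)] at h2
    rw [hM.spec _ (by omega)] at h1
    rw [Finset.mem_coe]
    unfold coin
    rw [mem_filter, mem_Ico]
    have e2 : (K : ℤ) - (a : ℤ) = ((K - a : ℕ) : ℤ) := by omega
    refine ⟨⟨Int.natCast_nonneg a, by simp only; omega⟩, ?_⟩
    rw [Bool.and_eq_true]
    simp only [e2, XZ_nat]
    exact ⟨h1, h2⟩
  · intro a _ b _ hab
    simpa using hab

/-- The general theorem for a small value. -/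
theorem small_pairs (bd v M R n nd w W W2 : ℕ) (D : List (ℕ × ℕ)) (B : List Lev) (D1 LL : List ℕ)
    (lenD lenD1 : ℕ)
    (hodd : v % 2 = 1) (hv5 : 5 ≤ v) (hM : recOK v M n) (hR : revOK M R n)
    (hB : lv 0 D = B) (hnE : nEnd 0 D = nd + 2) (hnd : 4 ≤ nd) (hw : w < v)
    (hlD : D.length = lenD) (hlD1 : D1.length = lenD1) (hlen : lenD + lenD1 ≤ v)
    (hlen0 : 0 < lenD)
    (chk : run (zeroOr (die (2 ^ (nd + 2)) D1)) B 0 bd = true)
    (hD : ∀ j < lenD, rchk v M n (nd + 4) ((lenD : ℤ) - 1 - j) (D.getD j (0, 0)).2 = true)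
    (hD1 : ∀ j < lenD1, rchk v M n (nd + 4) (-1 - (j : ℤ)) (D1.getD j 0) = true)
    (hLLlen : LL.length = v + w)
    (hLL : ∀ k < v + w, rchk v M n (nd + 4) ((v : ℤ) - 1 - k) (LL.getD k 0) = true)
    (hdie : allDie (2 ^ nd) w bd v LL = true)
    (hBD : BD v W D lenD 0) (hBD1 : v * (nd + 3) < W + 2) (hW1 : 2 * (v - 1) + v * (nd + 1) < W)
    (hWn : W2 ≤ n) (hW2 : W ≤ W2)
    (hbd : bd = 3 ∨ (bd = 1 ∧ 2 * W ≤ W2))
    (hearly : ∀ k < W2 - (2 * v + 3), pchk M R n (2 * v + 3 + k) = true) :
    ∀ K : ℕ, 2 * v + 3 ≤ K → Two v K := by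
  intro K hK
  by_cases hKW : K < W2
  · have := hearly (K - (2 * v + 3)) (by omega)
    have e : 2 * v + 3 + (K - (2 * v + 3)) = K := by omega
    rw [e] at this
    exact pchk_ok hM hR (by omega) this
  have main : bd < (coin (fun j => XZ v (K - j)) v W).card := by
   apply late_card bd v hodd hv5 W K (by omega) nd w hw ?_ hnd D ?_ hnE D1
    (by rw [hlD, hlD1]; exact hlen)
   · rw [hB]; exact chk
   · apply ROK_of_get
     intro j hj
     have h := hD j (by omega)
     have e : D.getD j (0, 0) = D[j] := List.getD_eq_getElem _ _ hj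
     rw [e] at h
     have := rchk_ok hM h
     rw [hlD]; exact this
   · rw [hlD]; exact hBD
   · apply ROK_two
     intro j hj
     have h := hD1 j (by omega)
     have e : D1.getD j 0 = D1[j] := List.getD_eq_getElem _ _ hj
     rw [e] at h
     have := rchk_ok hM h
     have e2 : (0 : ℤ) - 1 - j = -1 - j := by ring
     rw [e2]; exact this
   · apply BD_two
     have e : ((nd + 2 + 1 : ℕ) : ℤ) = ((nd + 3 : ℕ) : ℤ) := by push_cast; ring
     rw [e]
     have : ((v * (nd + 3) : ℕ) : ℤ) < W + 2 := by exact_mod_cast hBD1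
     push_cast at this ⊢
     omega
   · intro t ht
     obtain ⟨hlen1, hdie1⟩ := allDie_sound _ _ _ _ _ hdie (v - 1 - t) (by omega)
     refine ⟨LL[v - 1 - t], (LL.drop (v - 1 - t + 1)).take w, by simp, ?_, ?_⟩
     · have : dieTop (2 ^ nd) w bd LL[v - 1 - t] (LL.drop (v - 1 - t + 1)) =
         tryAll (die (2 ^ nd) (tk w (LL.drop (v - 1 - t + 1)))) bd LL[v - 1 - t] (2 ^ nd) (2 ^ nd) 3 :=
         rfl
       rw [this, tk_eq] at hdie1
       exact hdie1
     · apply ROK_two
       intro j hj
       have hj15 : j < w + 1 := by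
         have : (LL[v - 1 - t] :: (LL.drop (v - 1 - t + 1)).take w).length ≤ w + 1 := by
           simp
         omega
       have hget : (LL[v - 1 - t] :: (LL.drop (v - 1 - t + 1)).take w)[j] =
           LL.getD (v - 1 - t + j) 0 := by
         rcases j with _ | j
         · simp only [List.getElem_cons_zero, Nat.add_zero]
           exact (List.getD_eq_getElem _ _ hlen1).symm
         · simp only [List.getElem_cons_succ, List.getElem_take, List.getElem_drop]
           rw [List.getD_eq_getElem _ _ (by omega)]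
           congr 1; ring
       rw [hget]
       have hs := hLL (v - 1 - t + j) (by omega)
       have e1 : (v : ℤ) - 1 - ((v - 1 - t + j : ℕ) : ℤ) = (t : ℤ) - j := by omega
       rw [e1] at hs
       have e2 : (t : ℤ) + 1 - 1 - j = (t : ℤ) - j := by ring
       rw [e2]
       exact rchk_ok hM hs
   · have : ((2 * (v - 1) + v * (nd + 1) : ℕ) : ℤ) < W := by exact_mod_cast hW1
     push_cast [Nat.cast_sub (by omega : 1 ≤ v)] at this ⊢
     omega
   · intro h
     rw [h] at hlD
     simp at hlD
     omega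
  rcases hbd with h | ⟨h, hh⟩
  · exact two_of_card v K W (by omega)
  · exact two_of_half v K W (by omega) (by omega)

end Pool.Agent.H65.Ul
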