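import Mathlib
import Pool.Agent.H65.Ul.Mach

/-!
# Soundness of the machine
-/

set_option autoImplicit false

namespace Pool.Agent.H65.Ul

open Finset

/-- Exactly one of three. -/
def E (a b c : Bool) : Bool := ((a ^^ b) ^^ c) ^^ ((a && b) && c)

theorem E_iff (a b c : Bool) : E a b c = true ↔
    a.toNat + b.toNat + c.toNat = 1 := by
  revert a b c; decide

/-- The set of bits of a number. -/
def bits (n : ℕ) : Finset ℕ := (range n).filter (fun i => n.testBit i = true)

theorem mem_bits {n i : ℕ} : i ∈ bits n ↔ n.testBit i = true := by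
  unfold bits
  rw [mem_filter, mem_range]
  constructor
  · exact fun h => h.2
  · intro h
    refine ⟨?_, h⟩
    have h1 := Nat.ge_two_pow_of_testBit h
    have h2 : i < 2 ^ i := Nat.lt_two_pow_self
    omega

theorem bits_card_pos {n : ℕ} (h : n ≠ 0) : 0 < (bits n).card := by
  obtain ⟨i, hi⟩ := Nat.exists_testBit_of_ne_zero h
  exact card_pos.mpr ⟨i, mem_bits.mpr hi⟩

theorem bits_land_pred (n : ℕ) : (bits ((n + 1) &&& n)).card < (bits (n + 1)).card := by
  apply card_lt_card
  rw [ssubset_iff_subset_ne]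
  constructor
  · intro i hi
    rw [mem_bits, Nat.testBit_and] at hi
    rw [mem_bits]
    simp at hi
    exact hi.1
  · intro h
    have h1 : (n + 1) &&& n = n + 1 := by
      apply Nat.eq_of_testBit_eq
      intro i
      have := congrArg (fun s => i ∈ s) h
      simp only [mem_bits, eq_iff_iff] at this
      exact Bool.eq_iff_iff.mpr this
    have h2 : (n + 1) &&& n ≤ n := Nat.and_le_right
    omega

theorem frc_eq (n : ℕ) (k : ℕ → Bool) : frc n k = k n := by
  cases n <;> rfl

theorem andb_iff (x y : Bool) : andb x y = true ↔ x = true ∧ y = true := by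
  cases x <;> cases y <;> simp [andb]

theorem sp_sound (k : ℕ → Bool) (b : ℕ) : ∀ n : ℕ, sp k b n = true → (bits n).card ≤ b →
    ∃ b', b ≤ b' + (bits n).card ∧ k b' = true := by
  induction b with
  | zero =>
    intro n h hc
    cases n with
    | zero => exact ⟨0, by omega, h⟩
    | succ n =>
      have : 0 < (bits (n + 1)).card := bits_card_pos (Nat.succ_ne_zero n)
      omega
  | succ b ih =>
    intro n h hc
    cases n with
    | zero => exact ⟨b + 1, by omega, h⟩
    | succ n =>
      have h1 : sp k b ((n + 1) &&& n) = true := h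
      have h2 := bits_land_pred n
      obtain ⟨b', hb, hk⟩ := ih _ h1 (by omega)
      exact ⟨b', by omega, hk⟩

theorem tryAll_sound (k : ℕ → ℕ → Bool) (b F d m n : ℕ) (h : tryAll k b F d m n = true) :
    ∀ a < n, sp (k (d + m * a)) b ((d + m * a) &&& F) = true := by
  induction n with
  | zero => intro a ha; omega
  | succ n ih =>
    have h1 : andb (frc (d + m * n) (fun H => sp (k H) b (H &&& F)))
      (tryAll k b F d m n) = true := h
    rw [andb_iff, frc_eq] at h1
    intro a ha
    rcases Nat.lt_succ_iff_lt_or_eq.mp ha with h2 | h2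
    · exact ih h1.2 a h2
    · rw [h2]; exact h1.1

/-- Components of a level. -/
def Lev.m : Lev → ℕ | .mk m _ _ => m
/-- Components of a level. -/
def Lev.n : Lev → ℕ | .mk _ n _ => n
/-- Components of a level. -/
def Lev.F : Lev → ℕ | .mk _ _ F => F

/-- The rows follow the levels. -/
def Lk : List Lev → (ℕ → ℕ) → Prop
  | [], _ => True
  | l :: ls, R => (∃ a < l.n, R 1 = dn l.m (R 0) + l.m * a) ∧ Lk ls (fun j => R (j + 1))

/-- Total price of the rows. -/
def cost : List Lev → (ℕ → ℕ) → ℕ
  | [], _ => 0
  | l :: ls, R => (bits (R 1 &&& l.F)).card + cost ls (fun j => R (j + 1))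

theorem run_sound (fin : ℕ → ℕ → Bool) (ls : List Lev) : ∀ (R : ℕ → ℕ) (b : ℕ),
    run fin ls (R 0) b = true → Lk ls R → cost ls R ≤ b →
    ∃ b', b ≤ b' + cost ls R ∧ fin (R ls.length) b' = true := by
  induction ls with
  | nil => intro R b h _ _; exact ⟨b, by simp [cost], h⟩
  | cons l ls ih =>
    intro R b h hl hc
    obtain ⟨⟨a, ha, hR⟩, hl2⟩ := hl
    have h1 : frc (dn l.m (R 0)) (fun d => tryAll (run fin ls) b l.F d l.m l.n) = true := by
      cases l; exact h
    rw [frc_eq] at h1
    have h2 := tryAll_sound _ _ _ _ _ _ h1 a ha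
    rw [← hR] at h2
    simp only [cost] at hc
    obtain ⟨b1, hb1, hk⟩ := sp_sound _ _ _ h2 (by omega)
    obtain ⟨b2, hb2, hf⟩ := ih (fun j => R (j + 1)) b1 hk hl2 (by omega)
    refine ⟨b2, ?_, ?_⟩
    · simp only [cost]; omega
    · simpa using hf

theorem zeroOr_iff (k : ℕ → ℕ → Bool) (G b : ℕ) (h : zeroOr k G b = true) : G = 0 ∨ k G b = true := by
  cases G with
  | zero => exact Or.inl rfl
  | succ G => exact Or.inr h

end Pool.Agent.H65.Ul
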