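import Pool.Agent.H65.Ul.PRows

/-!
# From pairs of odd terms to the even terms of the Ulam sequence
-/

set_option autoImplicit false

namespace Pool.Agent.H65.Ul

open Finset

/-- Two different pairs of odd terms. -/
def Two (v : ℕ) (K : ℤ) : Prop := ∃ a b : ℤ, XZ v a = true ∧ XZ v (K - a) = true ∧
  XZ v b = true ∧ XZ v (K - b) = true ∧ 2 * a ≠ K ∧ 2 * b ≠ K ∧ a ≠ b ∧ a ≠ K - b

theorem XZ_true_nonneg {v : ℕ} {j : ℤ} (h : XZ v j = true) : 0 ≤ j := by
  by_contra hneg
  rw [XZ_neg v (by omega)] at h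
  exact Bool.noConfusion h

theorem half_of {v : ℕ} {K : ℕ} {a : ℤ} (h1 : XZ v a = true) (h2 : XZ v (K - a) = true)
    (h3 : 2 * a ≠ K) : ∃ c : ℕ, 2 * c < K ∧ X v c = true ∧ X v (K - c) = true ∧
      ((c : ℤ) = a ∨ (c : ℤ) = K - a) := by
  have p1 := XZ_true_nonneg h1
  have p2 := XZ_true_nonneg h2
  rcases lt_or_gt_of_ne h3 with h | h
  · refine ⟨a.toNat, by omega, ?_, ?_, Or.inl (by omega)⟩
    · rw [← XZ_nat]; rwa [Int.toNat_of_nonneg p1]
    · rw [← XZ_nat]
      have e : ((K - a.toNat : ℕ) : ℤ) = K - a := by omega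
      rwa [e]
  · refine ⟨(K - a).toNat, by omega, ?_, ?_, Or.inr (by omega)⟩
    · rw [← XZ_nat]; rwa [Int.toNat_of_nonneg p2]
    · rw [← XZ_nat]
      have e : ((K - (K - a).toNat : ℕ) : ℤ) = a := by omega
      rwa [e]

theorem Two.nat {v : ℕ} {K : ℕ} (h : Two v K) : ∃ a b : ℕ, a ≠ b ∧ 2 * a < K ∧ 2 * b < K ∧
    X v a = true ∧ X v (K - a) = true ∧ X v b = true ∧ X v (K - b) = true := by
  obtain ⟨a, b, h1, h2, h3, h4, h5, h6, h7, h8⟩ := h
  obtain ⟨c, c1, c2, c3, c4⟩ := half_of h1 h2 h5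
  obtain ⟨d, d1, d2, d3, d4⟩ := half_of h3 h4 h6
  exact ⟨c, d, by rcases c4 with c4 | c4 <;> rcases d4 with d4 | d4 <;> omega,
    c1, d1, c2, c3, d2, d3⟩

theorem exu3 {α : Type} (Q : α → Prop) (a b c : α) (A B C : Bool)
    (h : ∀ p, Q p ↔ ((A = true ∧ p = a) ∨ (B = true ∧ p = b) ∨ (C = true ∧ p = c)))
    (hab : A = true → B = true → a ≠ b) (hac : A = true → C = true → a ≠ c)
    (hbc : B = true → C = true → b ≠ c) : (∃! p, Q p) ↔ E A B C = true := by
  cases A <;> cases B <;> cases C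
  · simp [h, E]
  · simp [h, E]
  · simp [h, E]
  · have := hbc rfl rfl
    constructor
    · rintro ⟨p, _, hp⟩
      exact absurd ((hp b ((h _).mpr (by simp))).trans (hp c ((h _).mpr (by simp))).symm) this
    · intro hf; exact Bool.noConfusion hf
  · simp [h, E]
  · have := hac rfl rfl
    constructor
    · rintro ⟨p, _, hp⟩
      exact absurd ((hp a ((h _).mpr (by simp))).trans (hp c ((h _).mpr (by simp))).symm) this
    · intro hf; exact Bool.noConfusion hf
  · have := hab rfl rfl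
    constructor
    · rintro ⟨p, _, hp⟩
      exact absurd ((hp a ((h _).mpr (by simp))).trans (hp b ((h _).mpr (by simp))).symm) this
    · intro hf; exact Bool.noConfusion hf
  · have := hab rfl rfl
    constructor
    · rintro ⟨p, _, hp⟩
      exact absurd ((hp a ((h _).mpr (by simp))).trans (hp b ((h _).mpr (by simp))).symm) this
    · intro hf; exact Bool.noConfusion hf

theorem X_zero (v : ℕ) : X v 0 = true := by
  rw [← XZ_nat]; exact XZ_zero v

theorem X_even (v : ℕ) (hodd : v % 2 = 1) : ∀ a : ℕ, a ≤ v → X v (2 * a) = true := by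
  intro a
  induction a with
  | zero => intro _; exact X_zero v
  | succ a ih =>
    intro ha
    rw [← XZ_nat, XZ_rec v (j := ((2 * (a + 1) : ℕ) : ℤ)) (by omega)]
    have h1 := ih (by omega)
    rw [← XZ_nat] at h1
    have e1 : ((2 * (a + 1) : ℕ) : ℤ) - 2 = ((2 * a : ℕ) : ℤ) := by push_cast; ring
    rw [e1, h1, XZ_odd_small' v _ (by push_cast; omega) (by push_cast; omega),
      XZ_neg v (by push_cast; omega)]
    rfl

theorem X_v2 (v : ℕ) (hodd : v % 2 = 1) : X v (v + 2) = true := by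
  rw [← XZ_nat, XZ_rec v (j := ((v + 2 : ℕ) : ℤ)) (by omega)]
  have e1 : ((v + 2 : ℕ) : ℤ) - (v + 2) = 0 := by push_cast; ring
  rw [e1, XZ_zero, XZ_odd_small' v _ (by push_cast; omega) (by push_cast; omega),
    XZ_neg v (by push_cast; omega)]
  rfl

theorem X_v4 (v : ℕ) (hodd : v % 2 = 1) (hv : 5 ≤ v) : X v (v + 4) = false := by
  rw [← XZ_nat, XZ_rec v (j := ((v + 4 : ℕ) : ℤ)) (by omega)]
  have e1 : ((v + 4 : ℕ) : ℤ) - (v + 2) = ((2 * 1 : ℕ) : ℤ) := by push_cast; ring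
  have e2 : ((v + 4 : ℕ) : ℤ) - 2 = ((v + 2 : ℕ) : ℤ) := by push_cast; ring
  rw [e1, e2, XZ_nat, XZ_nat, X_v2 v hodd, X_even v hodd 1 (by omega),
    XZ_neg v (by push_cast; omega)]
  rfl

theorem X_v6 (v : ℕ) (hodd : v % 2 = 1) (hv : 5 ≤ v) : X v (v + 6) = true := by
  rw [← XZ_nat, XZ_rec v (j := ((v + 6 : ℕ) : ℤ)) (by omega)]
  have e1 : ((v + 6 : ℕ) : ℤ) - (v + 2) = ((2 * 2 : ℕ) : ℤ) := by push_cast; ring
  have e2 : ((v + 6 : ℕ) : ℤ) - 2 = ((v + 4 : ℕ) : ℤ) := by push_cast; ring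
  rw [e1, e2, XZ_nat, XZ_nat, X_v4 v hodd hv, X_even v hodd 2 (by omega),
    XZ_neg v (by push_cast; omega)]
  rfl

/-- The candidate for the Ulam set. -/
def T (v n : ℕ) : Prop := (n = 4 ∨ n = 2 * v + 4 ∨ n = 4 * v + 4) ∨
  (n % 2 = 1 ∧ v ≤ n ∧ X v ((n - v) / 2) = true)

theorem T_odd (v : ℕ) (hodd : v % 2 = 1) (n : ℕ) (hn : n % 2 = 1) :
    T v n ↔ XZ v (((n : ℤ) - v) / 2) = true := by
  unfold T
  constructor
  · rintro (h | ⟨_, h1, h2⟩)
    · omega
    · rw [← XZ_nat] at h2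
      have e : (((n - v) / 2 : ℕ) : ℤ) = ((n : ℤ) - v) / 2 := by omega
      rwa [e] at h2
  · intro h
    have h1 := XZ_true_nonneg h
    refine Or.inr ⟨hn, by omega, ?_⟩
    rw [← XZ_nat]
    have e : (((n - v) / 2 : ℕ) : ℤ) = ((n : ℤ) - v) / 2 := by omega
    rwa [e]

theorem T_even (v n : ℕ) (hn : n % 2 = 0) : T v n ↔ (n = 4 ∨ n = 2 * v + 4 ∨ n = 4 * v + 4) := by
  unfold T
  constructor
  · rintro (h | ⟨h, _⟩)
    · exact h
    · omega
  · exact fun h => Or.inl h

/-- Odd numbers: one step of the induction. -/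
theorem step_odd (v : ℕ) (hodd : v % 2 = 1) (hv : 5 ≤ v) (S : Set ℕ) (n : ℕ) (hn : v < n)
    (hno : n % 2 = 1) (ih : ∀ m < n, (m ∈ S ↔ T v m)) (h0 : 0 ∉ S) :
    (∃! p : ℕ × ℕ, p.1 < p.2 ∧ p.1 ∈ S ∧ p.2 ∈ S ∧ p.1 + p.2 = n) ↔ T v n := by
  obtain ⟨k, hk⟩ : ∃ k, n = v + 2 * k := ⟨(n - v) / 2, by omega⟩
  rw [T_odd v hodd n hno]
  have e0 : ((n : ℤ) - v) / 2 = k := by omega
  rw [e0, XZ_rec v (j := (k : ℤ)) (by omega)]
  set f : ℕ → ℕ × ℕ := fun e => (min e (n - e), max e (n - e)) with hf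
  have hfe : ∀ e e' : ℕ, e % 2 = 0 → e' % 2 = 0 → e < n → e' < n → e ≠ e' → f e ≠ f e' := by
    intro e e' h1 h2 h3 h4 h5 h6
    simp only [hf, Prod.mk.injEq] at h6
    omega
  have key : ∀ e : ℕ, ∀ j : ℤ, ((k : ℤ) - j) * 2 = n - e - v → e % 2 = 0 → T v e → e ∈ S ∨ n ≤ e := by
    intro e j _ _ hT
    by_cases h : e < n
    · exact Or.inl ((ih e h).mpr hT)
    · exact Or.inr (by omega)
  apply exu3 _ (f 4) (f (2 * v + 4)) (f (4 * v + 4))
  · intro p
    have hx : ∀ e : ℕ, ∀ j : ℤ, 2 * j = n - e - v → e % 2 = 0 → 0 < e →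
        ((n - e) ∈ S ∧ e < n ↔ XZ v j = true) := by
      intro e j hj he hepos
      constructor
      · rintro ⟨h1, h2⟩
        have h3 := (ih (n - e) (by omega)).mp h1
        rw [T_odd v hodd _ (by omega)] at h3
        have e1 : (((n - e : ℕ) : ℤ) - v) / 2 = j := by omega
        rwa [e1] at h3
      · intro h
        have h1 := XZ_true_nonneg h
        refine ⟨?_, by omega⟩
        rw [ih (n - e) (by omega), T_odd v hodd _ (by omega)]
        have e1 : (((n - e : ℕ) : ℤ) - v) / 2 = j := by omega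
        rwa [e1]
    have x0 := hx 4 ((k : ℤ) - 2) (by push_cast; omega) (by norm_num) (by norm_num)
    have x1 := hx (2 * v + 4) ((k : ℤ) - (v + 2)) (by push_cast; omega) (by omega) (by omega)
    have x2 := hx (4 * v + 4) ((k : ℤ) - (2 * v + 2)) (by push_cast; omega) (by omega) (by omega)
    rw [← x0, ← x1, ← x2]
    have back : ∀ e : ℕ, e % 2 = 0 → T v e → (n - e) ∈ S ∧ e < n →
        ((f e).1 < (f e).2 ∧ (f e).1 ∈ S ∧ (f e).2 ∈ S ∧ (f e).1 + (f e).2 = n) := by
      intro e he hT ⟨h1, h2⟩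
      have h3 : e ∈ S := (ih e h2).mpr hT
      simp only [hf]
      rcases le_total e (n - e) with h4 | h4
      · rw [min_eq_left h4, max_eq_right h4]
        exact ⟨by omega, h3, h1, by omega⟩
      · rw [min_eq_right h4, max_eq_left h4]
        exact ⟨by omega, h1, h3, by omega⟩
    constructor
    · rintro ⟨h1, h2, h3, h4⟩
      have hpos : 0 < p.1 := by
        rcases Nat.eq_zero_or_pos p.1 with h5 | h5
        · rw [h5] at h2; exact absurd h2 h0
        · exact h5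
      have main : ∀ a b : ℕ, a ∈ S → b ∈ S → a + b = n → 0 < b → a % 2 = 0 →
          (((n - 4) ∈ S ∧ 4 < n) ∧ a = 4) ∨
          (((n - (2 * v + 4)) ∈ S ∧ 2 * v + 4 < n) ∧ a = 2 * v + 4) ∨
          (((n - (4 * v + 4)) ∈ S ∧ 4 * v + 4 < n) ∧ a = 4 * v + 4) := by
        intro a b ha hb hab hbpos haev
        have h5 := (ih a (by omega)).mp ha
        rw [T_even v a haev] at h5
        have h6 : n - a = b := by omega
        rcases h5 with h5 | h5 | h5
        · left; rw [h5] at h6; exact ⟨⟨by rw [h6]; exact hb, by omega⟩, h5⟩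
        · right; left; rw [h5] at h6; exact ⟨⟨by rw [h6]; exact hb, by omega⟩, h5⟩
        · right; right; rw [h5] at h6; exact ⟨⟨by rw [h6]; exact hb, by omega⟩, h5⟩
      rcases Nat.mod_two_eq_zero_or_one p.1 with hpar | hpar
      · have hp : p = f p.1 := by
          simp only [hf]
          rw [min_eq_left (by omega), max_eq_right (by omega)]
          exact Prod.ext rfl (by simp only; omega)
        rcases main p.1 p.2 h2 h3 h4 (by omega) hpar with ⟨h, ha⟩ | ⟨h, ha⟩ | ⟨h, ha⟩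
        · left; exact ⟨h, by rw [hp, ha]⟩
        · right; left; exact ⟨h, by rw [hp, ha]⟩
        · right; right; exact ⟨h, by rw [hp, ha]⟩
      · have hp : p = f p.2 := by
          simp only [hf]
          rw [min_eq_right (by omega), max_eq_left (by omega)]
          exact Prod.ext (by simp only; omega) rfl
        rcases main p.2 p.1 h3 h2 (by omega) hpos (by omega) with ⟨h, ha⟩ | ⟨h, ha⟩ | ⟨h, ha⟩
        · left; exact ⟨h, by rw [hp, ha]⟩
        · right; left; exact ⟨h, by rw [hp, ha]⟩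
        · right; right; exact ⟨h, by rw [hp, ha]⟩
    · rintro (⟨h, hp⟩ | ⟨h, hp⟩ | ⟨h, hp⟩)
      · rw [hp]; exact back 4 (by norm_num) (by rw [T_even v _ (by norm_num)]; simp) h
      · rw [hp]; exact back _ (by omega) (by rw [T_even v _ (by omega)]; simp) h
      · rw [hp]; exact back _ (by omega) (by rw [T_even v _ (by omega)]; simp) h
  · intro h1 h2
    have := XZ_true_nonneg h1
    have := XZ_true_nonneg h2
    exact hfe _ _ (by norm_num) (by omega) (by omega) (by omega) (by omega)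
  · intro h1 h2
    have := XZ_true_nonneg h1
    have := XZ_true_nonneg h2
    exact hfe _ _ (by norm_num) (by omega) (by omega) (by omega) (by omega)
  · intro h1 h2
    have := XZ_true_nonneg h1
    have := XZ_true_nonneg h2
    exact hfe _ _ (by omega) (by omega) (by omega) (by omega) (by omega)

end Pool.Agent.H65.Ul
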