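import Pool.Agent.H65.Ul.Ulam

/-!
# The even terms of the Ulam sequence
-/

set_option autoImplicit false

namespace Pool.Agent.H65.Ul

open Finset

/-- Two pairs for all small sums, except the two which give even terms. -/
theorem small_even (v : ℕ) (hodd : v % 2 = 1) (hv : 11 ≤ v) (K : ℕ) (hK : K ≤ 2 * v + 2)
    (h2 : K ≠ 2) (h3 : K ≠ v + 2) (h4 : K ≠ 4) (h5 : K ≠ v + 4) :
    (∀ a b : ℕ, a < b → a + b = K → X v a = true → X v b = true → False) ∨
    (∃ a b : ℕ, a ≠ b ∧ 2 * a < K ∧ 2 * b < K ∧
      X v a = true ∧ X v (K - a) = true ∧ X v b = true ∧ X v (K - b) = true) := by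
  have hev : ∀ k : ℕ, k % 2 = 0 → k ≤ 2 * v → X v k = true := by
    intro k h1 h2
    have := X_even v hodd (k / 2) (by omega)
    rwa [Nat.mul_div_cancel' (Nat.dvd_of_mod_eq_zero h1)] at this
  have hod : ∀ k : ℕ, k % 2 = 1 → k < v + 2 → X v k = false := by
    intro k h1 h2
    rw [← XZ_nat]
    exact XZ_odd_small v k (by omega) h1
  rcases Nat.mod_two_eq_zero_or_one K with hp | hp
  · by_cases h0 : K = 0
    · left; intro a b hab hs _ _; omega
    · by_cases h7 : K = 2 * v + 2
      · right
        exact ⟨2, 4, by norm_num, by omega, by omega, hev _ (by norm_num) (by omega),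
          hev _ (by omega) (by omega), hev _ (by norm_num) (by omega), hev _ (by omega) (by omega)⟩
      · right
        exact ⟨0, 2, by norm_num, by omega, by omega, hev _ (by norm_num) (by omega),
          hev _ (by omega) (by omega), hev _ (by norm_num) (by omega), hev _ (by omega) (by omega)⟩
  · by_cases h6 : K < v + 2
    · left
      intro a b hab hs ha hb
      rcases Nat.mod_two_eq_zero_or_one a with hpa | hpa
      · rw [hod b (by omega) (by omega)] at hb
        exact Bool.noConfusion hb
      · rw [hod a (by omega) (by omega)] at ha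
        exact Bool.noConfusion ha
    · right
      have y2 := X_v2 v hodd
      have y6 := X_v6 v hodd (by omega)
      have key : ∀ c d : ℕ, c % 2 = 0 → d % 2 = 0 → c ≤ 2 * v → d ≤ 2 * v → c + (v + 2) = K →
          d + (v + 6) = K →
          (∃ a b : ℕ, a ≠ b ∧ 2 * a < K ∧ 2 * b < K ∧
          X v a = true ∧ X v (K - a) = true ∧ X v b = true ∧ X v (K - b) = true) := by
        intro c d hc hd hc2 hd2 e1 e2
        have xc := hev c hc hc2
        have xd := hev d hd hd2
        have e3 : K - c = v + 2 := by omega
        have e4 : K - d = v + 6 := by omega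
        have e5 : K - (v + 2) = c := by omega
        have e6 : K - (v + 6) = d := by omega
        by_cases q1 : 2 * c < K
        · by_cases q2 : 2 * d < K
          · exact ⟨c, d, by omega, q1, q2, xc, by rw [e3]; exact y2, xd, by rw [e4]; exact y6⟩
          · exact ⟨c, v + 6, by omega, q1, by omega, xc, by rw [e3]; exact y2, y6,
              by rw [e6]; exact xd⟩
        · by_cases q2 : 2 * d < K
          · exact ⟨v + 2, d, by omega, by omega, q2, y2, by rw [e5]; exact xc, xd,
              by rw [e4]; exact y6⟩
          · exact ⟨v + 2, v + 6, by omega, by omega, by omega, y2, by rw [e5]; exact xc, y6,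
              by rw [e6]; exact xd⟩
      exact key (K - (v + 2)) (K - (v + 6)) (by omega) (by omega) (by omega) (by omega)
        (by omega) (by omega)

/-- Even numbers: one step of the induction. -/
theorem step_even (v : ℕ) (hodd : v % 2 = 1) (hv : 11 ≤ v)
    (hpairs : ∀ K : ℕ, 2 * v + 3 ≤ K → Two v K) (S : Set ℕ) (n : ℕ) (hn : v < n)
    (hne : n % 2 = 0) (ih : ∀ m < n, (m ∈ S ↔ T v m)) (h0 : 0 ∉ S) :
    (∃! p : ℕ × ℕ, p.1 < p.2 ∧ p.1 ∈ S ∧ p.2 ∈ S ∧ p.1 + p.2 = n) ↔ T v n := by
  rw [T_even v n hne]
  -- representations
  have hrep : ∀ p : ℕ × ℕ, (p.1 < p.2 ∧ p.1 ∈ S ∧ p.2 ∈ S ∧ p.1 + p.2 = n) →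
      (∃ a b : ℕ, a < b ∧ 2 * v + 2 * (a + b) = n ∧ X v a = true ∧ X v b = true ∧
        p = (v + 2 * a, v + 2 * b)) ∨ (p = (4, 2 * v + 4) ∨ p = (4, 4 * v + 4) ∨
        p = (2 * v + 4, 4 * v + 4)) := by
    rintro ⟨p1, p2⟩ ⟨h1, h2, h3, h4⟩
    simp only at h1 h2 h3 h4
    have hpos : 0 < p1 := by
      rcases Nat.eq_zero_or_pos p1 with h5 | h5
      · rw [h5] at h2; exact absurd h2 h0
      · exact h5
    have t1 := (ih p1 (by omega)).mp h2
    have t2 := (ih p2 (by omega)).mp h3
    rcases Nat.mod_two_eq_zero_or_one p1 with hp | hp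
    · right
      rw [T_even v p1 hp] at t1
      rw [T_even v p2 (by omega)] at t2
      simp only [Prod.mk.injEq]
      omega
    · left
      rcases t1 with t1 | ⟨_, t1, u1⟩
      · omega
      rcases t2 with t2 | ⟨_, t2, u2⟩
      · omega
      refine ⟨(p1 - v) / 2, (p2 - v) / 2, by omega, by omega, u1, u2, ?_⟩
      simp only [Prod.mk.injEq]
      omega
  have hmk : ∀ a b : ℕ, a < b → 2 * v + 2 * (a + b) = n → X v a = true → X v b = true →
      (((v + 2 * a, v + 2 * b) : ℕ × ℕ).1 < ((v + 2 * a, v + 2 * b) : ℕ × ℕ).2 ∧
      ((v + 2 * a, v + 2 * b) : ℕ × ℕ).1 ∈ S ∧ ((v + 2 * a, v + 2 * b) : ℕ × ℕ).2 ∈ S ∧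
      ((v + 2 * a, v + 2 * b) : ℕ × ℕ).1 + ((v + 2 * a, v + 2 * b) : ℕ × ℕ).2 = n) := by
    intro a b hab hs ha hb
    simp only
    refine ⟨by omega, ?_, ?_, by omega⟩
    · rw [ih _ (by omega)]
      refine Or.inr ⟨by omega, by omega, ?_⟩
      have e : (v + 2 * a - v) / 2 = a := by omega
      rw [e]; exact ha
    · rw [ih _ (by omega)]
      refine Or.inr ⟨by omega, by omega, ?_⟩
      have e : (v + 2 * b - v) / 2 = b := by omega
      rw [e]; exact hb
  have hev : ∀ e ∈ ({4, 2 * v + 4, 4 * v + 4} : Set ℕ), e < n → e ∈ S := by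
    intro e he hlt
    rw [ih e hlt]
    left
    simpa using he
  have htwo : (∃ K : ℕ, 2 * v + 2 * K = n ∧ ∃ a b : ℕ, a ≠ b ∧ 2 * a < K ∧ 2 * b < K ∧
      X v a = true ∧ X v (K - a) = true ∧ X v b = true ∧ X v (K - b) = true) →
      ¬ (∃! p : ℕ × ℕ, p.1 < p.2 ∧ p.1 ∈ S ∧ p.2 ∈ S ∧ p.1 + p.2 = n) := by
    rintro ⟨K, hK, a, b, hab, h1, h2, h3, h4, h5, h6⟩ ⟨p, _, hp⟩
    have q1 := hp _ (hmk a (K - a) (by omega) (by omega) h3 h4)
    have q2 := hp _ (hmk b (K - b) (by omega) (by omega) h5 h6)
    have := q1.trans q2.symm
    simp only [Prod.mk.injEq] at this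
    omega
  by_cases hlt : n < 2 * v
  · constructor
    · rintro ⟨p, hp, _⟩
      rcases hrep p hp with ⟨a, b, _, h, _⟩ | h | h | h
      · omega
      · have := hp.2.2.2; rw [h] at this; simp only at this; omega
      · have := hp.2.2.2; rw [h] at this; simp only at this; omega
      · have := hp.2.2.2; rw [h] at this; simp only at this; omega
    · intro h; omega
  · obtain ⟨K, hK⟩ : ∃ K, n = 2 * v + 2 * K := ⟨(n - 2 * v) / 2, by omega⟩
    by_cases hbig : 2 * v + 3 ≤ K
    · constructor
      · intro h
        exact absurd h (htwo ⟨K, hK.symm, (hpairs K hbig).nat⟩)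
      · intro h; omega
    · by_cases k2 : K = 2
      · constructor
        · intro _; omega
        · intro _
          refine ⟨(v + 2 * 0, v + 2 * 2), hmk 0 2 (by norm_num) (by omega) (X_zero v)
            (X_even v hodd 1 (by omega)), ?_⟩
          intro p hp
          rcases hrep p hp with ⟨a, b, hab, h, ha, hb, hpe⟩ | h | h | h
          · have hb2 : a = 0 ∧ b = 2 := by
              have : a = 0 ∨ a = 1 := by omega
              omega
            rw [hpe, hb2.1, hb2.2]
          · have := hp.2.2.2; rw [h] at this; simp only at this; omega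
          · have := hp.2.2.2; rw [h] at this; simp only at this; omega
          · have := hp.2.2.2; rw [h] at this; simp only at this; omega
      · by_cases kv2 : K = v + 2
        · constructor
          · intro _; omega
          · intro _
            refine ⟨(v + 2 * 0, v + 2 * (v + 2)), hmk 0 (v + 2) (by omega) (by omega) (X_zero v)
              (X_v2 v hodd), ?_⟩
            intro p hp
            rcases hrep p hp with ⟨a, b, hab, h, ha, hb, hpe⟩ | h | h | h
            · have hb2 : a = 0 ∧ b = v + 2 := by
                rcases Nat.mod_two_eq_zero_or_one a with hpa | hpa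
                · have : ¬ b < v + 2 := by
                    intro hb3
                    rw [← XZ_nat, XZ_odd_small v b (by omega) (by omega)] at hb
                    exact Bool.noConfusion hb
                  omega
                · exfalso
                  rw [← XZ_nat, XZ_odd_small v a (by omega) hpa] at ha
                  exact Bool.noConfusion ha
              rw [hpe, hb2.1, hb2.2]
            · have := hp.2.2.2; rw [h] at this; simp only at this; omega
            · have := hp.2.2.2; rw [h] at this; simp only at this; omega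
            · have := hp.2.2.2; rw [h] at this; simp only at this; omega
        · constructor
          swap
          · intro h; omega
          intro hu
          exfalso
          by_cases k4 : K = 4
          · obtain ⟨p, _, hp⟩ := hu
            have q1 := hp _ (hmk 0 4 (by norm_num) (by omega) (X_zero v)
              (X_even v hodd 2 (by omega)))
            have q2 := hp (4, 2 * v + 4) ⟨by simp only; omega, hev _ (by simp) (by simp only; omega),
              hev _ (by simp) (by simp only; omega), by simp only; omega⟩
            have := q1.trans q2.symm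
            simp only [Prod.mk.injEq] at this
            omega
          · by_cases kv4 : K = v + 4
            · obtain ⟨p, _, hp⟩ := hu
              have q1 := hp _ (hmk 2 (v + 2) (by omega) (by omega) (X_even v hodd 1 (by omega))
                (X_v2 v hodd))
              have q2 := hp (4, 4 * v + 4) ⟨by simp only; omega,
                hev _ (by simp) (by simp only; omega),
                hev _ (by simp) (by simp only; omega), by simp only; omega⟩
              have := q1.trans q2.symm
              simp only [Prod.mk.injEq] at this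
              omega
            · rcases small_even v hodd hv K (by omega) k2 kv2 k4 kv4 with h | h
              · obtain ⟨p, hp, _⟩ := hu
                rcases hrep p hp with ⟨a, b, hab, hs, ha, hb, _⟩ | h5 | h5 | h5
                · exact h a b hab (by omega) ha hb
                · have := hp.2.2.2; rw [h5] at this; simp only at this; omega
                · have := hp.2.2.2; rw [h5] at this; simp only at this; omega
                · have := hp.2.2.2; rw [h5] at this; simp only at this
                  have hK2 : K = 2 * v + 4 := by omega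
                  omega
              · exact htwo ⟨K, hK.symm, h⟩ hu

/-- The even terms, from the two pairs property. -/
theorem even_terms (v : ℕ) (hodd : v % 2 = 1) (hv : 11 ≤ v)
    (hpairs : ∀ K : ℕ, 2 * v + 3 ≤ K → Two v K) (S : Set ℕ)
    (h1 : ∀ n : ℕ, n ≤ v → (n ∈ S ↔ (n = 4 ∨ n = v)))
    (h2 : ∀ n : ℕ, v < n →
      (n ∈ S ↔ ∃! p : ℕ × ℕ, p.1 < p.2 ∧ p.1 ∈ S ∧ p.2 ∈ S ∧ p.1 + p.2 = n)) :
    {n : ℕ | n ∈ S ∧ Even n} = {4, 2 * v + 4, 4 * v + 4} := by
  have h0 : (0 : ℕ) ∉ S := by
    rw [h1 0 (by omega)]; omega
  have main : ∀ n : ℕ, (n ∈ S ↔ T v n) := by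
    intro n
    induction n using Nat.strong_induction_on with
    | _ n ih =>
      by_cases hn : n ≤ v
      · rw [h1 n hn]
        rcases Nat.mod_two_eq_zero_or_one n with hp | hp
        · rw [T_even v n hp]; omega
        · unfold T
          constructor
          · rintro (h | h)
            · omega
            · right; exact ⟨hp, h.ge, by rw [h, Nat.sub_self]; exact X_zero v⟩
          · rintro (h | ⟨_, h, _⟩) <;> omega
      · rw [h2 n (by omega)]
        rcases Nat.mod_two_eq_zero_or_one n with hp | hp
        · exact step_even v hodd hv hpairs S n (by omega) hp ih h0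
        · exact step_odd v hodd (by omega) S n (by omega) hp ih h0
  ext n
  simp only [Set.mem_setOf_eq, Set.mem_insert_iff, Set.mem_singleton_iff]
  constructor
  · rintro ⟨hS, he⟩
    rw [main n, T_even v n (Nat.even_iff.mp he)] at hS
    exact hS
  · intro h
    have hp : n % 2 = 0 := by omega
    exact ⟨by rw [main n, T_even v n hp]; exact h, Nat.even_iff.mpr hp⟩

end Pool.Agent.H65.Ul
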